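import Mathlib
import Pool.Agent.H306R2.RZ.Defs

set_option autoImplicit false

/-! Project QT, parity: sums of odd real characters over squarefree integers. -/

namespace Pool.Agent.Y763.QTP

open Finset
open Pool.Agent.H306R2.RZ (js)

/-! ### `μ(n)^2 = ∑_{k^2 ∣ n} μ(k)` -/

theorem sqfree_eq (n : ℕ) (hn : n ≠ 0) :
    (if Squarefree n then (1 : ℝ) else 0) =
      ∑ d ∈ Finset.Icc 1 n, if d ^ 2 ∣ n then ((ArithmeticFunction.moebius d : ℤ) : ℝ) else 0 := by
  obtain ⟨a, b, hab, ha⟩ := Nat.sq_mul_squarefree n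
  have hb0 : b ≠ 0 := by rintro rfl; apply hn; rw [← hab]; simp
  have ha0 : a ≠ 0 := by rintro rfl; apply hn; rw [← hab]; simp
  have key : ∀ d : ℕ, d ^ 2 ∣ n ↔ d ∣ b := by
    intro d
    constructor
    · intro h
      have hd0 : d ≠ 0 := by
        rintro rfl
        rw [zero_pow two_ne_zero, zero_dvd_iff] at h
        exact hn h
      rw [← Nat.factorization_le_iff_dvd (pow_ne_zero _ hd0) hn] at h
      rw [← Nat.factorization_le_iff_dvd hd0 hb0]
      intro p
      have h1 := h p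
      rw [← hab, Nat.factorization_mul (pow_ne_zero _ hb0) ha0, Nat.factorization_pow,
        Nat.factorization_pow] at h1
      have h2 := ha.natFactorization_le_one p
      simp only [Finsupp.coe_smul, Finsupp.coe_add, Pi.add_apply, Pi.smul_apply, smul_eq_mul] at h1
      omega
    · intro h
      rw [← hab]
      exact Dvd.dvd.mul_right (pow_dvd_pow_of_dvd h 2) a
  have h1 : (∑ d ∈ Finset.Icc 1 n, if d ^ 2 ∣ n then ((ArithmeticFunction.moebius d : ℤ) : ℝ) else 0)
      = ∑ d ∈ b.divisors, ((ArithmeticFunction.moebius d : ℤ) : ℝ) := by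
    rw [← Finset.sum_filter]
    apply Finset.sum_congr _ (fun _ _ => rfl)
    ext d
    simp only [Finset.mem_filter, Finset.mem_Icc, Nat.mem_divisors, key]
    constructor
    · rintro ⟨-, h⟩; exact ⟨h, hb0⟩
    · rintro ⟨h, -⟩
      refine ⟨⟨Nat.pos_of_dvd_of_pos h (Nat.pos_of_ne_zero hb0), ?_⟩, h⟩
      have h3 : d ≤ b := Nat.le_of_dvd (Nat.pos_of_ne_zero hb0) h
      have h4 : b ∣ n := by rw [← hab]; exact Dvd.dvd.mul_right (dvd_pow_self b two_ne_zero) a
      exact h3.trans (Nat.le_of_dvd (Nat.pos_of_ne_zero hn) h4)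
  rw [h1]
  have h2 : (∑ d ∈ b.divisors, (ArithmeticFunction.moebius d : ℤ)) = if b = 1 then 1 else 0 := by
    have := congrArg (fun f => f b) ArithmeticFunction.moebius_mul_coe_zeta
    simp only [ArithmeticFunction.coe_mul_zeta_apply, ArithmeticFunction.one_apply] at this
    exact this
  have h2' : (∑ d ∈ b.divisors, ((ArithmeticFunction.moebius d : ℤ) : ℝ)) = if b = 1 then 1 else 0 := by
    have := congrArg (fun z : ℤ => (z : ℝ)) h2
    push_cast at this
    exact this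
  rw [h2']
  by_cases hb : b = 1
  · rw [if_pos hb, if_pos]
    rw [← hab, hb]
    simpa using ha
  · rw [if_neg hb, if_neg]
    intro h
    apply hb
    have h4 : b * b ∣ n := by rw [← hab, ← sq]; exact dvd_mul_right _ _
    exact Nat.isUnit_iff.1 (h b h4)

/-! ### odd periodic functions -/

section

variable {f : ℕ → ℝ} {M : ℕ}

theorem sum_period (hper : ∀ m, f (m + M) = f m)
    (hodd : ∀ m, m ≤ M → f (M - m) = -f m) : ∑ m ∈ range M, f m = 0 := by
  have h0 : f M = f 0 := by have := hper 0; rwa [zero_add] at this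
  have h1 : ∑ j ∈ range M, f (M - 1 - j) = ∑ j ∈ range M, f j := Finset.sum_range_reflect f M
  have h2 : ∑ j ∈ range M, f (M - 1 - j) = ∑ j ∈ range M, -f (j + 1) := by
    refine Finset.sum_congr rfl fun j hj => ?_
    have hj' := Finset.mem_range.1 hj
    rw [← hodd (j + 1) (by omega)]
    congr 1
    omega
  have h3 : ∑ j ∈ range M, f (j + 1) = ∑ j ∈ range M, f j := by
    have h4 := Finset.sum_range_succ f M
    have h5 := Finset.sum_range_succ' f M
    rw [h4, h0] at h5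
    linarith
  rw [Finset.sum_neg_distrib, h3] at h2
  linarith

theorem sum_le (hM : 0 < M) (hper : ∀ m, f (m + M) = f m) (hb : ∀ m, |f m| ≤ 1)
    (hodd : ∀ m, m ≤ M → f (M - m) = -f m) (Y : ℕ) : |∑ m ∈ range Y, f m| ≤ M := by
  have h0 := sum_period hper hodd
  have hshift : ∀ n : ℕ, ∑ m ∈ range (n + M), f m = ∑ m ∈ range n, f m := by
    intro n
    rw [add_comm n M, Finset.sum_range_add, h0, zero_add]
    refine Finset.sum_congr rfl fun x _ => ?_
    rw [add_comm M x, hper]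
  induction Y using Nat.strong_induction_on with
  | _ Y ih =>
    rcases Nat.lt_or_ge Y M with h | h
    · calc |∑ m ∈ range Y, f m| ≤ ∑ m ∈ range Y, |f m| := Finset.abs_sum_le_sum_abs _ _
        _ ≤ ∑ m ∈ range Y, (1 : ℝ) := Finset.sum_le_sum fun m _ => hb m
        _ = Y := by simp
        _ ≤ M := by exact_mod_cast h.le
    · obtain ⟨n, rfl⟩ : ∃ n, Y = n + M := ⟨Y - M, by omega⟩
      rw [hshift]
      exact ih n (by omega)

theorem sum_Icc_le (hM : 0 < M) (hper : ∀ m, f (m + M) = f m) (hb : ∀ m, |f m| ≤ 1)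
    (hodd : ∀ m, m ≤ M → f (M - m) = -f m) (h00 : f 0 = 0) (Y : ℕ) :
    |∑ m ∈ Icc 1 Y, f m| ≤ M := by
  have h1 : ∑ m ∈ Icc 1 Y, f m = ∑ m ∈ range (Y + 1), f m := by
    rw [Finset.sum_range_succ', h00, add_zero]
    induction Y with
    | zero => simp
    | succ n ih => rw [Finset.sum_range_succ, ← ih, Finset.sum_Icc_succ_top (by omega)]
  rw [h1]
  exact sum_le hM hper hb hodd _

/-- the sum over squarefree integers -/
theorem sum_sqfree (hM : 0 < M) (hper : ∀ m, f (m + M) = f m) (hb : ∀ m, |f m| ≤ 1)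
    (hodd : ∀ m, m ≤ M → f (M - m) = -f m) (h00 : f 0 = 0)
    (hmul : ∀ m n, f (m * n) = f m * f n) (Y : ℕ) :
    |∑ m ∈ (Icc 1 Y).filter (fun m => Squarefree m), f m| ≤ M * Real.sqrt Y := by
  have h1 : ∑ m ∈ (Icc 1 Y).filter (fun m => Squarefree m), f m =
      ∑ k ∈ Icc 1 Y, ((ArithmeticFunction.moebius k : ℤ) : ℝ) *
        ∑ m ∈ Icc 1 Y, if k ^ 2 ∣ m then f m else 0 := by
    rw [Finset.sum_filter]
    have e1 : ∀ m ∈ Icc 1 Y, (if Squarefree m then f m else 0) =
        ∑ k ∈ Icc 1 Y, (if k ^ 2 ∣ m then ((ArithmeticFunction.moebius k : ℤ) : ℝ) else 0) * f m := by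
      intro m hm
      obtain ⟨hm1, hm2⟩ := Finset.mem_Icc.1 hm
      rw [← Finset.sum_mul]
      have e2 : ∑ k ∈ Icc 1 Y, (if k ^ 2 ∣ m then ((ArithmeticFunction.moebius k : ℤ) : ℝ) else 0) =
          ∑ k ∈ Icc 1 m, (if k ^ 2 ∣ m then ((ArithmeticFunction.moebius k : ℤ) : ℝ) else 0) := by
        symm
        apply Finset.sum_subset
        · intro x hx
          obtain ⟨h1, h2⟩ := Finset.mem_Icc.1 hx
          exact Finset.mem_Icc.2 ⟨h1, h2.trans hm2⟩
        · intro x hx hx2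
          obtain ⟨h1, h2⟩ := Finset.mem_Icc.1 hx
          rw [if_neg]
          intro hd
          apply hx2
          rw [Finset.mem_Icc]
          refine ⟨h1, ?_⟩
          have h3 := Nat.le_of_dvd (by omega) hd
          nlinarith
      rw [e2, ← sqfree_eq m (by omega)]
      split_ifs <;> simp
    rw [Finset.sum_congr rfl e1, Finset.sum_comm]
    refine Finset.sum_congr rfl fun k _ => ?_
    rw [Finset.mul_sum]
    refine Finset.sum_congr rfl fun m _ => ?_
    split_ifs <;> simp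
  have hmu : ∀ k : ℕ, |((ArithmeticFunction.moebius k : ℤ) : ℝ)| ≤ 1 := by
    intro k
    have := ArithmeticFunction.abs_moebius_le_one (n := k)
    have h2 : ((|ArithmeticFunction.moebius k| : ℤ) : ℝ) ≤ 1 := by exact_mod_cast this
    rwa [Int.cast_abs] at h2
  have hin : ∀ k : ℕ, 1 ≤ k → |∑ m ∈ Icc 1 Y, (if k ^ 2 ∣ m then f m else 0)| ≤
      if k ≤ Nat.sqrt Y then (M : ℝ) else 0 := by
    intro k hk
    have hk2 : 0 < k ^ 2 := by positivity
    have e1 : ∑ m ∈ Icc 1 Y, (if k ^ 2 ∣ m then f m else 0) =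
        f (k ^ 2) * ∑ j ∈ Icc 1 (Y / k ^ 2), f j := by
      rw [← Finset.sum_filter, Finset.mul_sum]
      symm
      refine Finset.sum_bij (fun j _ => k ^ 2 * j) ?_ ?_ ?_ ?_
      · intro j hj
        obtain ⟨h1, h2⟩ := Finset.mem_Icc.1 hj
        rw [Finset.mem_filter, Finset.mem_Icc]
        refine ⟨⟨Nat.mul_pos hk2 h1, ?_⟩, dvd_mul_right _ _⟩
        calc k ^ 2 * j ≤ k ^ 2 * (Y / k ^ 2) := Nat.mul_le_mul_left _ h2
          _ ≤ Y := Nat.mul_div_le _ _
      · intro a _ b _ h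
        exact Nat.eq_of_mul_eq_mul_left hk2 h
      · intro m hm
        rw [Finset.mem_filter, Finset.mem_Icc] at hm
        obtain ⟨⟨h1, h2⟩, j, rfl⟩ := hm
        refine ⟨j, ?_, rfl⟩
        rw [Finset.mem_Icc]
        refine ⟨Nat.pos_of_mul_pos_left h1 |> fun _ => ?_, ?_⟩
        · rcases Nat.eq_zero_or_pos j with rfl | h
          · simp at h1
          · exact h
        · rw [Nat.le_div_iff_mul_le hk2, mul_comm]
          exact h2
      · intro j _
        rw [hmul]
    rw [e1, abs_mul]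
    split_ifs with hle
    · calc |f (k ^ 2)| * |∑ j ∈ Icc 1 (Y / k ^ 2), f j| ≤ 1 * M :=
            mul_le_mul (hb _) (sum_Icc_le hM hper hb hodd h00 _) (abs_nonneg _) zero_le_one
        _ = M := one_mul _
    · have : Y / k ^ 2 = 0 := by
        rw [Nat.div_eq_zero_iff]
        right
        rw [not_le, Nat.sqrt_lt'] at hle
        exact hle
      rw [this]
      simp
  rw [h1]
  calc |∑ k ∈ Icc 1 Y, ((ArithmeticFunction.moebius k : ℤ) : ℝ) *
        ∑ m ∈ Icc 1 Y, (if k ^ 2 ∣ m then f m else 0)|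
      ≤ ∑ k ∈ Icc 1 Y, |((ArithmeticFunction.moebius k : ℤ) : ℝ) *
        ∑ m ∈ Icc 1 Y, (if k ^ 2 ∣ m then f m else 0)| := Finset.abs_sum_le_sum_abs _ _
    _ ≤ ∑ k ∈ Icc 1 Y, (if k ≤ Nat.sqrt Y then (M : ℝ) else 0) := by
        refine Finset.sum_le_sum fun k hk => ?_
        obtain ⟨hk1, -⟩ := Finset.mem_Icc.1 hk
        rw [abs_mul]
        calc _ ≤ 1 * (if k ≤ Nat.sqrt Y then (M : ℝ) else 0) :=
              mul_le_mul (hmu k) (hin k hk1) (abs_nonneg _) zero_le_one
          _ = _ := one_mul _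
    _ = ((Icc 1 Y).filter (fun k => k ≤ Nat.sqrt Y)).card * (M : ℝ) := by
        rw [← Finset.sum_filter, Finset.sum_const, nsmul_eq_mul]
    _ ≤ (Nat.sqrt Y : ℝ) * M := by
        refine mul_le_mul_of_nonneg_right ?_ (Nat.cast_nonneg _)
        have h2 : (Icc 1 Y).filter (fun k => k ≤ Nat.sqrt Y) ⊆ Icc 1 (Nat.sqrt Y) := by
          intro k hk
          rw [Finset.mem_filter, Finset.mem_Icc] at hk
          exact Finset.mem_Icc.2 ⟨hk.1.1, hk.2⟩
        have h3 := Finset.card_le_card h2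
        rw [Nat.card_Icc] at h3
        exact_mod_cast (by omega : _ ≤ Nat.sqrt Y)
    _ ≤ Real.sqrt Y * M := by
        refine mul_le_mul_of_nonneg_right ?_ (Nat.cast_nonneg _)
        exact Real.nat_sqrt_le_real_sqrt
    _ = M * Real.sqrt Y := mul_comm _ _

end

/-! ### the Jacobi symbol `(-N | m)` -/

theorem jac_neg_one {N : ℕ} (hN : 0 < N) : jacobiSym (-(N : ℤ)) (4 * N - 1) = -1 := by
  have hb1 : (4 * N - 1) % 4 = 3 := by omega
  have hodd : Odd (4 * N - 1) := by rw [Nat.odd_iff]; omega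
  have h1 : jacobiSym (N : ℤ) (4 * N - 1) = 1 := by
    have e1 : jacobiSym (4 * (N : ℤ)) (4 * N - 1) = 1 := by
      have : jacobiSym (4 * (N : ℤ)) (4 * N - 1) = jacobiSym 1 (4 * N - 1) := by
        apply jacobiSym.mod_left'
        rw [← Int.ModEq, Int.modEq_iff_dvd]
        refine ⟨-1, ?_⟩
        have : ((4 * N - 1 : ℕ) : ℤ) = 4 * N - 1 := by omega
        rw [this]
        ring
      rw [this, jacobiSym.one_left]
    have e2 : jacobiSym 4 (4 * N - 1) = 1 := by
      have : (4 : ℤ) = 2 ^ 2 := by norm_num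
      rw [this, jacobiSym.pow_left]
      apply jacobiSym.sq_one
      rw [Int.gcd_comm]
      have : Nat.Coprime (4 * N - 1) 2 := Nat.coprime_two_right.2 hodd
      exact this
    rw [jacobiSym.mul_left, e2, one_mul] at e1
    exact e1
  have h2 : (-(N : ℤ)) = (-1) * N := by ring
  rw [h2, jacobiSym.mul_left, h1, mul_one, jacobiSym.at_neg_one hodd, ZMod.χ₄_nat_three_mod_four hb1]

theorem jac_period (N : ℕ) {m n : ℕ} (hm : Odd m) (hn : Odd n) (h : m ≡ n [MOD 4 * N]) :
    jacobiSym (-(N : ℤ)) m = jacobiSym (-(N : ℤ)) n := by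
  rw [jacobiSym.mod_right _ hm, jacobiSym.mod_right _ hn]
  have e : (-(N : ℤ)).natAbs = N := by simp
  rw [e]
  congr 1

/-- `(-N | m)` for `m` prime to `Q` -/
noncomputable def fN (N Q m : ℕ) : ℝ := if m.Coprime Q then js (-(N : ℤ)) m else 0

variable {N Q : ℕ}

theorem odd_of_cop (h2 : 2 ∣ Q) {m : ℕ} (h : m.Coprime Q) : Odd m :=
  Nat.coprime_two_right.1 (Nat.Coprime.coprime_dvd_right h2 h)

theorem fN_abs (m : ℕ) : |fN N Q m| ≤ 1 := by
  unfold fN
  split_ifs
  · unfold js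
    rcases jacobiSym.trichotomy (-(N : ℤ)) m with h | h | h <;> rw [h] <;> simp
  · simp

theorem fN_per (h2 : 2 ∣ Q) (m : ℕ) : fN N Q (m + 4 * N * Q) = fN N Q m := by
  unfold fN
  have h1 : (m + 4 * N * Q).Coprime Q ↔ m.Coprime Q := Nat.coprime_add_mul_right_left _ _ _
  by_cases h : m.Coprime Q
  · rw [if_pos h, if_pos (h1.2 h)]
    unfold js
    rw [jac_period N (odd_of_cop h2 (h1.2 h)) (odd_of_cop h2 h)]
    unfold Nat.ModEq
    rw [Nat.add_mul_mod_self_left]
  · rw [if_neg h, if_neg (fun h' => h (h1.1 h'))]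

theorem fN_mul (h2 : 2 ∣ Q) (m n : ℕ) : fN N Q (m * n) = fN N Q m * fN N Q n := by
  unfold fN
  by_cases h : m.Coprime Q
  · by_cases h' : n.Coprime Q
    · rw [if_pos h, if_pos h', if_pos (h.mul_left h')]
      unfold js
      have hm0 : m ≠ 0 := (odd_of_cop h2 h).pos.ne'
      have hn0 : n ≠ 0 := (odd_of_cop h2 h').pos.ne'
      have : NeZero m := ⟨hm0⟩
      have : NeZero n := ⟨hn0⟩
      rw [jacobiSym.mul_right]
      push_cast
      rfl
    · rw [if_neg h', if_neg (fun h3 => h' (Nat.Coprime.coprime_mul_left h3)), mul_zero]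
  · rw [if_neg h, if_neg (fun h3 => h (Nat.Coprime.coprime_mul_right h3)), zero_mul]

theorem fN_odd (hN : 0 < N) (h2 : 2 ∣ Q) (hQ : 0 < Q) (m : ℕ) (hm : m ≤ 4 * N * Q) :
    fN N Q (4 * N * Q - m) = -fN N Q m := by
  have hM : 0 < 4 * N * Q := by positivity
  -- `f(M - m) = f((M - 1) m)`
  have hMQ : 4 * N ≤ 4 * N * Q := Nat.le_mul_of_pos_right _ hQ
  have h1 : fN N Q (4 * N * Q - 1) = -1 := by
    have hc : (4 * N * Q - 1).Coprime Q := by
      have : Nat.Coprime (4 * N * Q - 1) (4 * N * Q) := by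
        have h3 := Nat.coprime_self_sub_right (m := 1) (n := 4 * N * Q) (by omega)
        exact (h3.2 (Nat.coprime_one_right _)).symm
      exact Nat.Coprime.coprime_mul_left_right this
    unfold fN
    rw [if_pos hc]
    unfold js
    rw [jac_period N (odd_of_cop h2 hc) (n := 4 * N - 1) (by rw [Nat.odd_iff]; omega),
      jac_neg_one hN]
    · norm_num
    · have h3 : 4 * N * Q - 1 = (4 * N - 1) + 4 * N * (Q - 1) := by
        obtain ⟨k, rfl⟩ : ∃ k, Q = k + 1 := ⟨Q - 1, by omega⟩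
        rw [Nat.add_sub_cancel, Nat.mul_add, mul_one]
        omega
      unfold Nat.ModEq
      rw [h3, Nat.add_mul_mod_self_left]
  have h3 : fN N Q (4 * N * Q - m) = fN N Q ((4 * N * Q - 1) * m) := by
    have h4 : (4 * N * Q - m) + 4 * N * Q * m = (4 * N * Q - 1) * m + 4 * N * Q := by
      obtain ⟨k, hk⟩ : ∃ k, 4 * N * Q = k + 1 := ⟨4 * N * Q - 1, by omega⟩
      rw [hk, Nat.add_sub_cancel]
      have : m ≤ k + 1 := hk ▸ hm
      have h5 : (k + 1) * m = k * m + m := by ring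
      rw [h5]
      omega
    have h5 : ∀ k n : ℕ, fN N Q (n + 4 * N * Q * k) = fN N Q n := by
      intro k
      induction k with
      | zero => intro n; simp
      | succ k ih =>
        intro n
        rw [Nat.mul_succ, ← add_assoc, fN_per h2, ih]
    rw [← h5 m (4 * N * Q - m), h4, fN_per h2]
  rw [h3, fN_mul h2, h1, neg_one_mul]

theorem fN_zero (h2 : 2 ∣ Q) : fN N Q 0 = 0 := by
  unfold fN
  rw [if_neg]
  intro h
  exact absurd (odd_of_cop h2 h) (by decide)

/-- the sum of `(-N | m)` over the squarefree `m ≤ Y` prime to `Q` -/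
theorem sum_jac (hN : 0 < N) (h2 : 2 ∣ Q) (hQ : 0 < Q) (Y : ℕ) :
    |∑ m ∈ (Icc 1 Y).filter (fun m => Squarefree m ∧ m.Coprime Q), js (-(N : ℤ)) m| ≤
      (4 * N * Q : ℕ) * Real.sqrt Y := by
  have h1 : ∑ m ∈ (Icc 1 Y).filter (fun m => Squarefree m ∧ m.Coprime Q), js (-(N : ℤ)) m =
      ∑ m ∈ (Icc 1 Y).filter (fun m => Squarefree m), fN N Q m := by
    rw [← Finset.filter_filter, Finset.sum_filter]
    rfl
  rw [h1]
  exact sum_sqfree (by positivity) (fN_per h2) fN_abs (fN_odd hN h2 hQ) (fN_zero h2)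
    (fN_mul h2) Y

end Pool.Agent.Y763.QTP
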