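import Pool.Agent.Y763.QTP.Tw
import Pool.Agent.Y763.QTP.Sum

set_option autoImplicit false

/-! Project QT, parity: the sum of the signs. -/

namespace Pool.Agent.Y763.QTP

open Finset
open Pool.Agent.Y19.QT
open Pool.Agent.H306R2.RZ (js)

theorem chi_cases {m : ℕ} (h : Odd m) : (ZMod.χ₄ m : ℤ) = 1 ∨ (ZMod.χ₄ m : ℤ) = -1 := by
  rw [ZMod.χ₄_nat_eq_if_mod_four]
  have := Nat.odd_iff.1 h
  rw [if_neg (by omega)]
  split_ifs <;> simp

theorem chi_abs {m : ℕ} (h : Odd m) : (ZMod.χ₄ m : ℤ).natAbs = 1 := by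
  rcases chi_cases h with h | h <;> rw [h] <;> rfl

/-- uniqueness of the decomposition -/
theorem decomp_unique {Q : ℕ} {g g' : ℤ} {m m' : ℕ} (ho : Odd m) (ho' : Odd m')
    (hc : m.Coprime Q) (hc' : m'.Coprime Q)
    (hg : ∀ p : ℕ, p.Prime → (p : ℤ) ∣ g → p ∣ Q) (hg' : ∀ p : ℕ, p.Prime → (p : ℤ) ∣ g' → p ∣ Q)
    (h : g * (ZMod.χ₄ m * m) = g' * (ZMod.χ₄ m' * m')) : m = m' ∧ g = g' := by
  have key : ∀ (x y : ℕ) (u : ℤ), x.Coprime Q → (∀ p : ℕ, p.Prime → (p : ℤ) ∣ u → p ∣ Q) →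
      x ∣ u.natAbs * y → x ∣ y := by
    intro x y u hx hu hd
    refine Nat.Coprime.dvd_of_dvd_mul_left ?_ hd
    refine Nat.coprime_of_dvd fun p hp h1 h2 => ?_
    have h3 := hu p hp (Int.natCast_dvd.2 h2)
    have h4 := Nat.dvd_gcd h1 h3
    rw [hx] at h4
    exact hp.ne_one (Nat.dvd_one.1 h4)
  have h1 := congrArg Int.natAbs h
  rw [Int.natAbs_mul, Int.natAbs_mul, Int.natAbs_mul, Int.natAbs_mul, chi_abs ho, chi_abs ho',
    one_mul, one_mul, Int.natAbs_natCast, Int.natAbs_natCast] at h1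
  have h2 : m ∣ m' := key m m' g' hc hg' (h1 ▸ dvd_mul_left _ _)
  have h3 : m' ∣ m := key m' m g hc' hg (h1.symm ▸ dvd_mul_left _ _)
  have h4 : m = m' := Nat.dvd_antisymm h2 h3
  refine ⟨h4, ?_⟩
  subst h4
  have h5 : (ZMod.χ₄ m * m : ℤ) ≠ 0 := by
    refine mul_ne_zero ?_ (by exact_mod_cast ho.pos.ne')
    rcases chi_cases ho with h | h <;> rw [h] <;> norm_num
  exact mul_right_cancel₀ h5 h

theorem sum_w {Q : ℕ} {lam : ℕ → ℝ} (T : Twists Q lam) (hT : Sgn T) :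
    ∃ C : ℝ, ∀ X : ℕ, |∑ d ∈ sqf X, T.w d| ≤ C * Real.sqrt X := by
  classical
  obtain ⟨h2, N, w0, m, g, hd⟩ := hT
  have hQ0 : 0 < Q := T.hecke.pos
  refine ⟨∑ j ∈ Icc (-(Q : ℤ)) Q, ((4 * N j * Q : ℕ) : ℝ), fun X => ?_⟩
  have hmaps : ∀ d ∈ sqf X, g d ∈ Icc (-(Q : ℤ)) Q := by
    intro d hdX
    rw [Finset.mem_Icc]
    exact abs_le.1 (hd d (mem_sqf.1 hdX).2).1.2.2.2.2.2.2
  rw [← Finset.sum_fiberwise_of_maps_to hmaps, Finset.sum_mul]
  refine (Finset.abs_sum_le_sum_abs _ _).trans (Finset.sum_le_sum fun j _ => ?_)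
  rcases (((sqf X).filter fun d => g d = j)).eq_empty_or_nonempty with he | ⟨d0, hd0⟩
  · rw [he, Finset.sum_empty, abs_zero]
    positivity
  · rw [Finset.mem_filter] at hd0
    obtain ⟨hd0X, hd0g⟩ := hd0
    have hs0 : Squarefree d0 := (mem_sqf.1 hd0X).2
    obtain ⟨⟨he0, hodd0, hsq0, hcop0, hg0, hgQ0, -⟩, hN0, hw0, -⟩ := hd d0 hs0
    rw [hd0g] at he0 hg0 hgQ0 hN0 hw0
    have hjsq : Squarefree j := by
      have h3 : j ∣ d0 := by rw [he0]; exact dvd_mul_right _ _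
      exact hs0.squarefree_of_dvd h3
    have hjp : 0 < j.natAbs := Int.natAbs_pos.2 hg0
    have hsum : ∑ d ∈ (sqf X).filter (fun d => g d = j), T.w d =
        w0 j * ∑ x ∈ (Icc 1 (X / j.natAbs)).filter (fun x => Squarefree x ∧ x.Coprime Q),
          js (-(N j : ℤ)) x := by
      rw [Finset.mul_sum]
      refine Finset.sum_bij (fun d _ => m d) ?_ ?_ ?_ ?_
      · intro d hdm
        rw [Finset.mem_filter] at hdm
        obtain ⟨hdX, hdg⟩ := hdm
        obtain ⟨hle, hs⟩ := mem_sqf.1 hdX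
        obtain ⟨⟨he, hodd, hsq, hcop, -, -, -⟩, -⟩ := hd d hs
        rw [hdg] at he
        rw [Finset.mem_filter, Finset.mem_Icc]
        refine ⟨⟨hodd.pos, ?_⟩, hsq, hcop⟩
        rw [Nat.le_div_iff_mul_le hjp]
        have h3 := congrArg Int.natAbs he
        rw [Int.natAbs_mul, Int.natAbs_mul, chi_abs hodd, one_mul, Int.natAbs_natCast] at h3
        have h4 : (d.natAbs : ℤ) ≤ X := by rw [← Int.abs_eq_natAbs]; exact hle
        have h5 : d.natAbs ≤ X := by exact_mod_cast h4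
        rw [mul_comm, ← h3]
        exact h5
      · intro d1 h1 d2 h2' heq
        rw [Finset.mem_filter] at h1 h2'
        obtain ⟨⟨he1, -⟩, -⟩ := hd d1 (mem_sqf.1 h1.1).2
        obtain ⟨⟨he2, -⟩, -⟩ := hd d2 (mem_sqf.1 h2'.1).2
        rw [he1, he2, h1.2, h2'.2]
        have heq' : m d1 = m d2 := heq
        rw [heq']
      · intro x hx
        rw [Finset.mem_filter, Finset.mem_Icc] at hx
        obtain ⟨⟨hx1, hx2⟩, hxs, hxc⟩ := hx
        have hxo : Odd x := odd_of_cop h2 hxc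
        set d : ℤ := j * (ZMod.χ₄ x * x) with hdef
        have hdabs : d.natAbs = j.natAbs * x := by
          rw [hdef, Int.natAbs_mul, Int.natAbs_mul, chi_abs hxo, one_mul, Int.natAbs_natCast]
        have hcopjx : Nat.Coprime j.natAbs x := by
          refine Nat.coprime_of_dvd fun p hp h1 h3 => ?_
          have h4 := hgQ0 p hp (Int.natCast_dvd.2 h1)
          have h5 := Nat.dvd_gcd h3 h4
          rw [hxc] at h5
          exact hp.ne_one (Nat.dvd_one.1 h5)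
        have hdsq : Squarefree d := by
          rw [← Int.squarefree_natAbs, hdabs]
          exact (Nat.squarefree_mul hcopjx).2 ⟨Int.squarefree_natAbs.2 hjsq, hxs⟩
        have hdX : d ∈ sqf X := by
          rw [mem_sqf]
          refine ⟨?_, hdsq⟩
          rw [Int.abs_eq_natAbs, hdabs]
          have h3 : j.natAbs * x ≤ X := by
            rw [Nat.le_div_iff_mul_le hjp] at hx2
            rw [mul_comm]
            exact hx2
          exact_mod_cast h3
        obtain ⟨⟨he, hodd, hsq, hcop, hg1, hgQ, -⟩, -⟩ := hd d hdsq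
        obtain ⟨e1, e2⟩ := decomp_unique (Q := Q) (g := j) (g' := g d) hxo hodd hxc hcop hgQ0 hgQ
          (by rw [← he])
        refine ⟨d, ?_, e1.symm⟩
        rw [Finset.mem_filter]
        exact ⟨hdX, e2.symm⟩
      · intro d hdm
        rw [Finset.mem_filter] at hdm
        obtain ⟨hdX, hdg⟩ := hdm
        obtain ⟨-, -, -, hw⟩ := hd d (mem_sqf.1 hdX).2
        rw [hw, hdg]
    rw [hsum, abs_mul]
    have hw1 : |w0 j| = 1 := by
      have h3 : |w0 j| ^ 2 = 1 := by rw [sq_abs, hw0]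
      exact (pow_eq_one_iff_of_nonneg (abs_nonneg _) two_ne_zero).1 h3
    rw [hw1, one_mul]
    refine (sum_jac hN0 h2 hQ0 _).trans ?_
    refine mul_le_mul_of_nonneg_left ?_ (Nat.cast_nonneg _)
    apply Real.sqrt_le_sqrt
    exact_mod_cast Nat.div_le_self _ _

end Pool.Agent.Y763.QTP
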