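import Pool.Agent.Y692.QN.Abs

set_option autoImplicit false

/-! Project QT, parity: the family of twists with the signs. -/

namespace Pool.Agent.Y763.QTP

open Complex
open Pool.Agent.Y19.QT
open Pool.Agent.H306R2.RZ (js)
open Pool.Agent.Y692.QN
open Pool.Agent.Y691.QT (MulF cv ppf ppf_mul ppf_pow cv_pow SS one_le_SS sum_bd ap_twist)
open Pool.Agent.Y705.QT (js_mul js_one js_abs_le cheb_bound)

/-- the coefficients of an elliptic curve, with the sign of the functional equations of the twists -/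
def AFS (a b : ℤ) (N : ℕ) (f : ℕ → ℂ) : Prop :=
  AF a b N f ∧ ∃ w0 : ℝ, w0 ^ 2 = 1 ∧ ∀ m : ℕ, Odd m → Squarefree m → m.Coprime N →
    ∀ z : ℂ, 0 < z.re →
      ∑' n : ℕ, f n * js n m * cexp (-(2 * Real.pi * n * (1 / z) / (m * Real.sqrt N : ℝ))) =
        (w0 * js (-(N : ℤ)) m : ℝ) * z ^ 2 *
          ∑' n : ℕ, f n * js n m * cexp (-(2 * Real.pi * n * z / (m * Real.sqrt N : ℝ)))

/-- the data of the signs of a family of twists -/
def Sgn {Q : ℕ} {lam : ℕ → ℝ} (T : Twists Q lam) : Prop :=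
  2 ∣ Q ∧ ∃ (N : ℤ → ℕ) (w0 : ℤ → ℝ) (m : ℤ → ℕ) (g : ℤ → ℤ), ∀ d : ℤ, Squarefree d →
    (d = g d * (ZMod.χ₄ (m d) * m d) ∧ Odd (m d) ∧ Squarefree (m d) ∧ (m d).Coprime Q ∧ g d ≠ 0 ∧
      (∀ p : ℕ, p.Prime → (p : ℤ) ∣ g d → p ∣ Q) ∧ |g d| ≤ Q) ∧
    0 < N (g d) ∧ w0 (g d) ^ 2 = 1 ∧ T.w d = w0 (g d) * js (-(N (g d) : ℤ)) (m d)

theorem T10_sgn (a b : ℤ) (hab : 4 * a ^ 3 + 27 * b ^ 2 ≠ 0)
    (hf : ∀ g : ℤ, g ≠ 0 → ∃ (N : ℕ) (f : ℕ → ℂ), AFS (a * g ^ 2) (b * g ^ 3) N f) :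
    ∃ (Q : ℕ) (lam : ℕ → ℝ) (T : Twists Q lam), Sgn T ∧
      (∀ p : ℕ, p.Prime → (p : ℤ) ∣ 2 * (4 * a ^ 3 + 27 * b ^ 2) → p ∣ Q) ∧
      ∀ p : ℕ, p.Prime → ¬ p ∣ Q → lam p = ap a b p / Real.sqrt p := by
  classical
  have hf' : ∀ g : ℤ, ∃ (N : ℕ) (f : ℕ → ℂ) (w0 : ℝ),
      g ≠ 0 → AF (a * g ^ 2) (b * g ^ 3) N f ∧ w0 ^ 2 = 1 ∧
      ∀ m : ℕ, Odd m → Squarefree m → m.Coprime N → ∀ z : ℂ, 0 < z.re →
      ∑' n : ℕ, f n * js n m * cexp (-(2 * Real.pi * n * (1 / z) / (m * Real.sqrt N : ℝ))) =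
        (w0 * js (-(N : ℤ)) m : ℝ) * z ^ 2 *
          ∑' n : ℕ, f n * js n m * cexp (-(2 * Real.pi * n * z / (m * Real.sqrt N : ℝ))) := by
    intro g
    by_cases hg : g = 0
    · exact ⟨1, 0, 1, fun h => absurd hg h⟩
    · obtain ⟨N, f, h, w0, h1, h2⟩ := hf g hg
      exact ⟨N, f, w0, fun _ => ⟨h, h1, h2⟩⟩
  choose N f w0 hF' using hf'
  have hF : ∀ g : ℤ, g ≠ 0 → AF (a * g ^ 2) (b * g ^ 3) (N g) (f g) := fun g hg => (hF' g hg).1
  set Q : ℕ := 30030 * (2 * (4 * a ^ 3 + 27 * b ^ 2)).natAbs with hQdef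
  have hQ0 : 0 < Q := by
    rw [hQdef]
    refine Nat.mul_pos (by norm_num) (Int.natAbs_pos.2 (mul_ne_zero two_ne_zero hab))
  have h30 : 30030 ∣ Q := Dvd.intro _ rfl
  have h2 : 2 ∣ Q := (by norm_num : 2 ∣ 30030).trans h30
  have hQ : ∀ p : ℕ, p.Prime → (p : ℤ) ∣ 2 * (4 * a ^ 3 + 27 * b ^ 2) → p ∣ Q := by
    intro p _ h
    exact dvd_mul_of_dvd_right (Int.natCast_dvd.1 h) _
  have hF1 : AF (a * 1 ^ 2) (b * 1 ^ 3) (N 1) (f 1) := hF 1 one_ne_zero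
  have hone : ∀ p : ℕ, p.Prime → (p : ℤ) ∣ 1 → p ∣ Q := by
    intro p hp h
    exact absurd (Int.natCast_dvd.1 h) (by simpa using hp.ne_one)
  have hlam : ∀ p : ℕ, p.Prime → ¬ p ∣ Q → lamQ (f 1) Q p = ap a b p / Real.sqrt p := by
    intro p hp hpQ
    have h1 := (nf_good_eq hF1 hF1 hQ hone hp hpQ).2.2.1
    have h3 := co_pow (Q := Q) hp 0
    rw [zero_add, pow_one, if_neg hpQ] at h3
    unfold lamQ
    rw [h1, h3, mul_one]
  have hH : Hecke Q (lamQ (f 1) Q) := by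
    have hm := lamQ_mul hF1 Q
    refine ⟨hQ0, ?_, hm.zero, hm.one, hm.mul, ?_, ?_, ?_⟩
    · intro p hp h16
      refine Nat.dvd_trans ?_ h30
      interval_cases p <;> first | (norm_num; done) | (exact absurd hp (by norm_num))
    · intro p k hp hpQ
      unfold lamQ
      rw [co_pow hp, if_pos hpQ, mul_zero]
    · intro p k hp hpQ
      have hn := (nf_good_eq hF1 hF1 hQ hone hp hpQ).1
      have hr := nf_rec hF1 hp k
      rw [if_neg hn] at hr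
      have c : ∀ j : ℕ, co Q (p ^ j) = 1 := by
        intro j
        rcases j with _ | j
        · simp [co_one]
        · rw [co_pow hp, if_neg hpQ]
      have c1 : co Q p = 1 := by simpa using c 1
      unfold lamQ
      rw [c, c, c, c1, hr]
      ring
    · intro p hp
      by_cases hpQ : p ∣ Q
      · have h3 := co_pow (Q := Q) hp 0
        rw [zero_add, pow_one, if_pos hpQ] at h3
        unfold lamQ
        rw [h3, mul_zero, abs_zero]
        norm_num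
      · have hn := (nf_good_eq hF1 hF1 hQ hone hp hpQ).1
        have h3 := co_pow (Q := Q) hp 0
        rw [zero_add, pow_one, if_neg hpQ] at h3
        unfold lamQ
        rw [h3, mul_one]
        exact nf_good hF1 hp hn
  choose! m g hdec using fun (d : ℤ) (hd : Squarefree d) => decomp hQ0 h2 d hd
  have hcoN : ∀ d : ℤ, Squarefree d → (m d).Coprime (N (g d)) := by
    intro d hd
    obtain ⟨-, -, -, hmQ, hg0, hgQ, -⟩ := hdec d hd
    refine Nat.coprime_of_dvd fun p hp h1 h3 => ?_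
    have hpQ : ¬ p ∣ Q := fun h4 => by
      have := Nat.dvd_gcd h1 h4
      rw [hmQ] at this
      exact hp.ne_one (Nat.dvd_one.1 this)
    exact (nf_good_eq hF1 (hF (g d) hg0) hQ hgQ hp hpQ).2.1 h3
  set w : ℤ → ℝ := fun d => w0 (g d) * js (-(N (g d) : ℤ)) (m d) with hwdef
  have hw : ∀ d : ℤ, Squarefree d → w d ^ 2 = 1 ∧ ∀ z : ℂ, 0 < z.re →
      ∑' n : ℕ, f (g d) n * js n (m d) *
          cexp (-(2 * Real.pi * n * (1 / z) / (m d * Real.sqrt (N (g d)) : ℝ))) =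
        w d * z ^ 2 * ∑' n : ℕ, f (g d) n * js n (m d) *
          cexp (-(2 * Real.pi * n * z / (m d * Real.sqrt (N (g d)) : ℝ))) := by
    intro d hd
    obtain ⟨-, hodd, hsqm, hmQ, hg0, hgQ, -⟩ := hdec d hd
    obtain ⟨-, k1, k2⟩ := hF' (g d) hg0
    refine ⟨?_, k2 (m d) hodd hsqm (hcoN d hd)⟩
    rw [hwdef, mul_pow, k1, one_mul]
    apply js_sq
    rw [Int.neg_gcd, Int.gcd_natCast_natCast]
    exact (hcoN d hd).symm
  set c : ℝ := Q + (∑ j ∈ Finset.Icc (-(Q : ℤ)) Q, Real.sqrt (N j)) + SS ^ Q.primeFactors.card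
    with hc
  have hQ1 : (1 : ℝ) ≤ Q := by exact_mod_cast hQ0
  have hsum0 : 0 ≤ ∑ j ∈ Finset.Icc (-(Q : ℤ)) Q, Real.sqrt (N j) :=
    Finset.sum_nonneg fun _ _ => Real.sqrt_nonneg _
  have hSS0 : 0 ≤ SS ^ Q.primeFactors.card := pow_nonneg (by linarith [one_le_SS]) _
  have hcQ : (Q : ℝ) ≤ c := by rw [hc]; linarith
  have hcS : SS ^ Q.primeFactors.card ≤ c := by rw [hc]; linarith
  have hcN : ∀ d : ℤ, Squarefree d → Real.sqrt (N (g d)) ≤ c := by
    intro d hd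
    obtain ⟨-, -, -, -, -, -, hgQ⟩ := hdec d hd
    have h1 : g d ∈ Finset.Icc (-(Q : ℤ)) Q := by
      rw [Finset.mem_Icc]
      exact abs_le.1 hgQ
    have h3 := Finset.single_le_sum (f := fun j => Real.sqrt (N j))
      (fun j _ => Real.sqrt_nonneg _) h1
    rw [hc]
    linarith
  have habs : ∀ d : ℤ, Squarefree d → |(d : ℝ)| = |(g d : ℝ)| * m d := by
    intro d hd
    obtain ⟨he, hodd, -⟩ := hdec d hd
    have hchi : |((ZMod.χ₄ (m d) : ℤ) : ℝ)| = 1 := by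
      have h4 : ZMod.χ₄ (m d) = 1 ∨ ZMod.χ₄ (m d) = -1 := by
        rw [ZMod.χ₄_nat_eq_if_mod_four]
        have := Nat.odd_iff.1 hodd
        rw [if_neg (by omega)]
        split_ifs <;> simp
      rcases h4 with h4 | h4 <;> rw [h4] <;> norm_num
    have h5 : (d : ℝ) = (g d : ℝ) * (((ZMod.χ₄ (m d) : ℤ) : ℝ) * (m d : ℝ)) := by
      exact_mod_cast congrArg (fun x : ℤ => (x : ℝ)) he
    rw [h5, abs_mul, abs_mul, hchi, one_mul, Nat.abs_cast]
  have hNpos : ∀ d : ℤ, Squarefree d → (1 : ℝ) ≤ Real.sqrt (N (g d)) := by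
    intro d hd
    have := (hF (g d) (hdec d hd).2.2.2.2.1).pos
    rw [Real.one_le_sqrt]
    exact_mod_cast this
  have q_lower : ∀ d : ℤ, Squarefree d → |(d : ℝ)| ≤ c * ((m d : ℝ) * Real.sqrt (N (g d))) := by
    intro d hd
    have hg1 : |(g d : ℝ)| ≤ c := by
      refine le_trans ?_ hcQ
      have := (hdec d hd).2.2.2.2.2.2
      exact_mod_cast this
    rw [habs d hd]
    have h0 : (0 : ℝ) ≤ m d := by positivity
    calc |(g d : ℝ)| * m d ≤ c * m d := mul_le_mul_of_nonneg_right hg1 h0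
      _ = c * (m d * 1) := by ring
      _ ≤ c * (m d * Real.sqrt (N (g d))) := by
          refine mul_le_mul_of_nonneg_left ?_ (by linarith)
          exact mul_le_mul_of_nonneg_left (hNpos d hd) h0
  have q_upper : ∀ d : ℤ, Squarefree d → (m d : ℝ) * Real.sqrt (N (g d)) ≤ c * |(d : ℝ)| := by
    intro d hd
    rw [habs d hd]
    have h0 : (0 : ℝ) ≤ m d := by positivity
    have hg1 : (1 : ℝ) ≤ |(g d : ℝ)| := by
      have := Int.one_le_abs (hdec d hd).2.2.2.2.1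
      exact_mod_cast this
    calc (m d : ℝ) * Real.sqrt (N (g d)) ≤ m d * c := mul_le_mul_of_nonneg_left (hcN d hd) h0
      _ = c * (1 * m d) := by ring
      _ ≤ c * (|(g d : ℝ)| * m d) := by
          refine mul_le_mul_of_nonneg_left ?_ (by linarith)
          exact mul_le_mul_of_nonneg_right hg1 h0
  have e_sum : ∀ d : ℤ, Squarefree d →
      Summable (fun x : ℕ => |ee (f (g d)) Q (m d) x| * (x : ℝ) ^ (-(1 / 4) : ℝ)) ∧
      ∑' x : ℕ, |ee (f (g d)) Q (m d) x| * (x : ℝ) ^ (-(1 / 4) : ℝ) ≤ c := by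
    intro d hd
    have hFd := hF (g d) (hdec d hd).2.2.2.2.1
    have h := sum_bd (ee_mul hFd Q (m d)) Q hQ0.ne'
      (fun p k hp hpQ => ee_pow' _ hp hpQ k) (fun p k hp => ee_pow_le hFd hp k)
    exact ⟨h.1, h.2.trans hcS⟩
  have e'_sum : ∀ d : ℤ, Squarefree d →
      Summable (fun x : ℕ => |ei (N (g d)) (f (g d)) Q (m d) x| * (x : ℝ) ^ (-(1 / 4) : ℝ)) ∧
      ∑' x : ℕ, |ei (N (g d)) (f (g d)) Q (m d) x| * (x : ℝ) ^ (-(1 / 4) : ℝ) ≤ c := by
    intro d hd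
    have hFd := hF (g d) (hdec d hd).2.2.2.2.1
    have h := sum_bd (ppf_mul (iu (N (g d)) (f (g d)) Q (m d))) Q hQ0.ne'
      (fun p k hp hpQ => by rw [ppf_pow _ hp]; simp [iu, hpQ])
      (fun p k hp => ei_pow_le hFd hp k)
    exact ⟨h.1, h.2.trans hcS⟩
  have hfe : ∀ d : ℤ, Squarefree d → ∀ z : ℂ, 0 < z.re →
    ∑' n : ℕ, (((∑ x ∈ n.divisorsAntidiagonal, ee (f (g d)) Q (m d) x.1 *
        (lamQ (f 1) Q x.2 * js d x.2)) *
        Real.sqrt n : ℝ) : ℂ) * cexp (-(2 * Real.pi * n * (1 / z) /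
          ((m d : ℝ) * Real.sqrt (N (g d)) : ℝ))) =
      w d * z ^ 2 * ∑' n : ℕ, (((∑ x ∈ n.divisorsAntidiagonal, ee (f (g d)) Q (m d) x.1 *
        (lamQ (f 1) Q x.2 * js d x.2)) *
        Real.sqrt n : ℝ) : ℂ) * cexp (-(2 * Real.pi * n * z /
          ((m d : ℝ) * Real.sqrt (N (g d)) : ℝ))) := by
    intro d hd z hz
    have hFd := hF (g d) (hdec d hd).2.2.2.2.1
    obtain ⟨he, hodd, hsqm, hmQ, hg0, hgQ, hgle⟩ := hdec d hd
    have key : ∀ n : ℕ, (((∑ x ∈ n.divisorsAntidiagonal, ee (f (g d)) Q (m d) x.1 *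
        (lamQ (f 1) Q x.2 * js d x.2)) * Real.sqrt n : ℝ) : ℂ) =
        (f (g d)) n * js n (m d) := by
      intro n
      have h1 := cv_lam hF1 hFd h2 hQ hgQ hodd n
      rw [← he] at h1
      have h3 : ∑ x ∈ n.divisorsAntidiagonal, ee (f (g d)) Q (m d) x.1 *
        (lamQ (f 1) Q x.2 * js d x.2) = nf (f (g d)) n * js n (m d) := h1
      rw [h3]
      rcases Nat.eq_zero_or_pos n with rfl | hn
      · simp [Pool.Agent.Y692.QN.coef_zero hFd]
      · have hs : Real.sqrt n ≠ 0 := (Real.sqrt_pos.2 (by exact_mod_cast hn)).ne'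
        rw [coef_eq hFd, ← Complex.ofReal_mul]
        congr 1
        unfold nf
        field_simp
    have h := (hw d hd).2 z hz
    simp only [key]
    exact h
  let T : Twists Q (lamQ (f 1) Q) := {
    hecke := hH
    c := c
    one_le_c := by linarith
    q := fun d => (m d : ℝ) * Real.sqrt (N (g d))
    w := w
    e := fun d => ee (f (g d)) Q (m d)
    e' := fun d => ei (N (g d)) (f (g d)) Q (m d)
    q_lower := q_lower
    q_upper := q_upper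
    w_sq := fun d hd => (hw d hd).1
    e_zero := fun d hd => ⟨(ee_mul (hF (g d) (hdec d hd).2.2.2.2.1) Q (m d)).zero, (ppf_mul _).zero⟩
    e_sum := e_sum
    e'_sum := e'_sum
    e_inv := fun d hd n _ => cv_ee_ei (hF (g d) (hdec d hd).2.2.2.2.1) (hdec d hd).2.2.2.1 n
    fe := hfe }
  refine ⟨Q, lamQ (f 1) Q, T, ⟨h2, N, w0, m, g, fun d hd => ⟨hdec d hd,
    (hF (g d) (hdec d hd).2.2.2.2.1).pos, (hF' (g d) (hdec d hd).2.2.2.2.1).2.1, rfl⟩⟩, hQ, hlam⟩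

end Pool.Agent.Y763.QTP
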