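import Pool.Agent.Y496.QT10a
import Pool.Agent.Y818.QT13b
import Pool.Agent.Y763.QTP.Tw

set_option autoImplicit false

/-! Project QT, parity: the sign of the twists of a newform. -/

namespace Pool.Agent.Y763.QTP

open Complex UpperHalfPlane MatrixGroups CongruenceSubgroup
open Pool.Agent.H306R2.RZ (js)
open Pool.Agent.Y19.QT
open Pool.Agent.W97.TW (tau TS A)
open Pool.Agent.H491R3.J (jchi)
open Pool.Agent.Y496.QT10a

noncomputable section

theorem T10a_sgn (a b : ℤ) (N : ℕ) (f : CuspForm (Gamma0 N : Subgroup (GL (Fin 2) ℝ)) 2)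
    (hf : IsFormOf a b N f) : ∃ w : ℝ, w ^ 2 = 1 ∧ ∀ m : ℕ, Odd m → Squarefree m → m.Coprime N →
    ∀ z : ℂ, 0 < z.re →
      ∑' n : ℕ, coef f n * js n m * cexp (-(2 * Real.pi * n * (1 / z) / (m * Real.sqrt N : ℝ))) =
        (w * js (-(N : ℤ)) m : ℝ) * z ^ 2 *
          ∑' n : ℕ, coef f n * js n m * cexp (-(2 * Real.pi * n * z / (m * Real.sqrt N : ℝ))) := by
  have hN : 0 < N := hf.pos
  have : NeZero N := ⟨hN.ne'⟩
  obtain ⟨w, hw, hfr⟩ := hf.fricke
  refine ⟨w, by rcases hw with h | h <;> rw [h] <;> norm_num, ?_⟩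
  intro m hm hsq hco z hz
  have hm0 : 0 < m := hm.pos
  have : NeZero m := ⟨hm0.ne'⟩
  obtain ⟨hψ2, hψ⟩ := jchi_sq m hm hsq
  set ψ := jchi m with hψdef
  -- the Fricke involution
  have hNC : (N : ℂ) ≠ 0 := by exact_mod_cast hN.ne'
  have hmC : (m : ℂ) ≠ 0 := by exact_mod_cast hm0.ne'
  have hW : ∀ z : ℍ, f (ofComplex (-1 / ((N : ℂ) * z))) = (-(w : ℂ) * N) * (z : ℂ) ^ (2 : ℤ) * f z := by
    intro z
    have hz : (z : ℂ) ≠ 0 := z.ne_zero
    have him : 0 < (-1 / ((N : ℂ) * z)).im := by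
      rw [neg_div, Complex.neg_im, one_div, Complex.inv_im, neg_div, neg_neg]
      have h1 : 0 < ((N : ℂ) * z).im := by
        rw [Complex.mul_im]
        simp only [Complex.natCast_re, Complex.natCast_im, zero_mul, add_zero]
        have : (0 : ℝ) < N := by exact_mod_cast hN
        have := z.im_pos
        have h3 : (z : ℂ).im = z.im := rfl
        rw [h3]
        positivity
      exact div_pos h1 (Complex.normSq_pos.2 (fun h => by rw [h] at h1; simp at h1))
    rw [ofComplex_apply_of_im_pos him, hfr z ⟨_, him⟩ ?_]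
    · rw [zpow_ofNat]
    · change (-1 / ((N : ℂ) * z)) * ((N : ℂ) * z) = -1
      field_simp
  -- the value at `-N`
  have hv : ψ (-(N : ZMod m)) = ((js (-(N : ℤ)) m : ℝ) : ℂ) := by
    change ((jacobiSym (((-(N : ZMod m)).val : ℕ) : ℤ) m : ℤ) : ℂ) = _
    unfold js
    have h1 : jacobiSym (((-(N : ZMod m)).val : ℕ) : ℤ) m = jacobiSym (-(N : ℤ)) m := by
      apply jacobiSym.mod_left'
      rw [← Int.ModEq, ← ZMod.intCast_eq_intCast_iff]
      push_cast
      rw [ZMod.natCast_val, ZMod.cast_id', id]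
    rw [h1]
    push_cast
    rfl
  have hτ0 := Pool.Agent.W97.TW.tau_ne_zero ψ hψ
  set q : ℝ := m * Real.sqrt N with hq
  have hqpos : 0 < q := by
    have : 0 < Real.sqrt N := Real.sqrt_pos.2 (by exact_mod_cast hN)
    have : (0 : ℝ) < m := by exact_mod_cast hm0
    positivity
  have hqC : (q : ℂ) ≠ 0 := by exact_mod_cast hqpos.ne'
  have hq2 : (q : ℂ) ^ 2 = (m : ℂ) ^ 2 * N := by
    have : q ^ 2 = (m : ℝ) ^ 2 * N := by
      rw [hq, mul_pow, Real.sq_sqrt (Nat.cast_nonneg N)]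
    exact_mod_cast this
  have him0 : ∀ z : ℂ, 0 < z.re → 0 < (Complex.I * z / q).im := by
    intro z hz
    rw [Complex.div_ofReal_im, Complex.I_mul_im]
    positivity
  have hterm : ∀ z : ℂ, 0 < z.re →
      TS f ψ (Complex.I * z / q) = tau ψ *
        ∑' n : ℕ, coef f n * js n m * cexp (-(2 * Real.pi * n * z / (q : ℝ))) := by
    intro z hz
    have him : 0 < (Complex.I * z / q).im := him0 z hz
    rw [← (hasSum_TS f ψ hψ hψ2 him).tsum_eq, tsum_mul_left]
    congr 1
    refine tsum_congr fun n => ?_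
    rw [hψdef, jchi_natCast]
    have e1 : coef f n = A f n := rfl
    have e2 : ((js n m : ℝ) : ℂ) = ((jacobiSym (n : ℤ) m : ℤ) : ℂ) := by
      unfold js; push_cast; rfl
    rw [e1, e2]
    congr 2
    have : Complex.I * Complex.I = -1 := I_mul_I
    linear_combination (2 * Real.pi * n * z / q) * this
  have hz0 : z ≠ 0 := fun h => by rw [h] at hz; simp at hz
  have hz' : 0 < (1 / z).re := by
    rw [one_div, Complex.inv_re]
    exact div_pos hz (Complex.normSq_pos.2 hz0)
  have him : 0 < (Complex.I * z / q).im := him0 z hz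
  have h1 := Pool.Agent.W97.TW.TS_one f hW hN hco.symm ψ hψ2 him
  have e : -1 / ((N : ℂ) * (m : ℂ) ^ 2 * (Complex.I * z / q)) = Complex.I * (1 / z) / q := by
    rw [show (N : ℂ) * (m : ℂ) ^ 2 = (q : ℂ) ^ 2 by rw [hq2]; ring]
    field_simp
    exact Complex.I_sq.symm
  rw [e, hterm z hz, hterm _ hz', hv] at h1
  have h2 : ((m : ℂ) * (Complex.I * z / q)) ^ (2 : ℤ) = -(z ^ 2 / N) := by
    rw [zpow_ofNat, mul_pow, div_pow, mul_pow, I_sq, hq2]
    field_simp
  rw [h2] at h1
  apply mul_left_cancel₀ hτ0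
  rw [h1]
  push_cast
  field_simp

/-- newforms satisfy the axioms -/
theorem afs_of_form {a b : ℤ} {N : ℕ} {f : CuspForm (Gamma0 N : Subgroup (GL (Fin 2) ℝ)) 2}
    (hf : IsFormOf a b N f) : AFS a b N (coef f) := by
  refine ⟨?_, T10a_sgn a b N f hf⟩
  exact {
    pos := hf.pos
    zero := Pool.Agent.Y818.QT13b.coef_zero hf
    one := hf.one
    real := hf.real
    mul := hf.mul
    pow := hf.pow
    good := hf.good
    bad := hf.bad
    fe := fun m h1 h2 h3 => T10a a b N f hf m h1 h2 h3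
    ent := Pool.Agent.Y818.QT13b.entire hf
    points := hf.points }

end

end Pool.Agent.Y763.QTP
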