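import Pool.Agent.Y19.QT.ZD2
import Pool.Agent.Y703.QT12.Ord

set_option autoImplicit false

/-! Project QT, parity: the order of vanishing at the centre has the parity given by the sign. -/

namespace Pool.Agent.Y763.QTP

open Complex Filter Topology
open Pool.Agent.Y19.QT

theorem parity_aux (f A : ℂ → ℂ) (w : ℂ) {z : ℂ} (hz : z = 1 / 2) (hf : AnalyticAt ℂ f z)
    (hA : ContinuousAt A z)
    (hA1 : A z = 1) (hfe : ∀ᶠ s in 𝓝 z, f (1 - s) = w * A s * f s)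
    (hfin : analyticOrderAt f z ≠ ⊤) : (-1 : ℂ) ^ (analyticOrderAt f z).toNat = w := by
  obtain ⟨g, hg, hg0, hgf⟩ := (hf.analyticOrderAt_ne_top).1 hfin
  set n := (analyticOrderAt f z).toNat with hn
  have hn' : analyticOrderNatAt f z = n := rfl
  rw [hn'] at hgf
  have hinv : Tendsto (fun s : ℂ => 1 - s) (𝓝 z) (𝓝 z) := by
    have h1 : Continuous (fun s : ℂ => 1 - s) := by fun_prop
    have h2 := h1.tendsto z
    have h3 : (1 : ℂ) - z = z := by rw [hz]; norm_num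
    simpa only [h3] using h2
  have h1 : ∀ᶠ s in 𝓝 z, f (1 - s) = ((1 - s) - z) ^ n • g (1 - s) := hinv.eventually hgf
  have h2 : ∀ᶠ s in 𝓝 z, (s - z) ^ n * ((-1) ^ n * g (1 - s)) = (s - z) ^ n * (w * A s * g s) := by
    filter_upwards [h1, hgf, hfe] with s h1 h2 h3
    rw [h1, h2] at h3
    have e : (1 - s) - z = -(s - z) := by rw [hz]; ring
    rw [e, smul_eq_mul, smul_eq_mul, neg_pow] at h3
    linear_combination h3
  have h3 : ∀ᶠ s in 𝓝[≠] z, (-1) ^ n * g (1 - s) = w * A s * g s := by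
    filter_upwards [h2.filter_mono nhdsWithin_le_nhds, self_mem_nhdsWithin] with s h3 h4
    have h5 : s - z ≠ 0 := sub_ne_zero.2 h4
    exact mul_left_cancel₀ (pow_ne_zero n h5) h3
  have t1 : Tendsto (fun s => (-1 : ℂ) ^ n * g (1 - s)) (𝓝[≠] z) (𝓝 ((-1) ^ n * g z)) :=
    (tendsto_const_nhds.mul (hg.continuousAt.tendsto.comp hinv)).mono_left nhdsWithin_le_nhds
  have t2 : Tendsto (fun s => w * A s * g s) (𝓝[≠] z) (𝓝 (w * A z * g z)) :=
    ((tendsto_const_nhds.mul hA.tendsto).mul hg.continuousAt.tendsto).mono_left nhdsWithin_le_nhds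
  have h4 : (-1 : ℂ) ^ n * g z = w * A z * g z := tendsto_nhds_unique_of_eventuallyEq t1 t2 h3
  rw [hA1, mul_one] at h4
  exact mul_right_cancel₀ hg0 h4

variable {Q : ℕ} {lam : ℕ → ℝ}

theorem ell_fe (T : Twists Q lam) {d : ℤ} (hd : Squarefree d) {s : ℂ} (h1 : 0 < s.re)
    (h2 : s.re < 1) : T.ell d (1 - s) = T.w d *
      ((2 * Real.pi / (T.q d : ℂ)) ^ (1 - s + 1 / 2) * (Complex.Gamma (1 - s + 1 / 2))⁻¹ *
        ((2 * Real.pi / (T.q d : ℂ)) ^ (s + 1 / 2) * (Complex.Gamma (s + 1 / 2))⁻¹)⁻¹) *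
      T.ell d s := by
  have hq : (2 * Real.pi / (T.q d : ℂ)) ≠ 0 := Pool.Agent.Y703.QT8.q_ne T hd
  have hG : Complex.Gamma (s + 1 / 2) ≠ 0 := Complex.Gamma_ne_zero_of_re_pos (by
    have : (s + 1 / 2).re = s.re + 1 / 2 := by simp
    rw [this]; linarith)
  have hp : (2 * Real.pi / (T.q d : ℂ)) ^ (s + 1 / 2) ≠ 0 := by
    rw [Complex.cpow_ne_zero_iff]; exact Or.inl hq
  unfold Twists.ell
  have e : (1 - s + 1 / 2 : ℂ) = 2 - (s + 1 / 2) := by ring
  have h3 := mellin_fe T hd (s + 1 / 2)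
  rw [← e] at h3
  rw [h3]
  have hpG : (2 * Real.pi / (T.q d : ℂ)) ^ (s + 1 / 2) * (Complex.Gamma (s + 1 / 2))⁻¹ ≠ 0 :=
    mul_ne_zero hp (inv_ne_zero hG)
  generalize (2 * Real.pi / (T.q d : ℂ)) ^ (s + 1 / 2) * (Complex.Gamma (s + 1 / 2))⁻¹ = x at hpG
  generalize (2 * Real.pi / (T.q d : ℂ)) ^ (1 - s + 1 / 2) *
    (Complex.Gamma (1 - s + 1 / 2))⁻¹ = y
  field_simp

/-- the parity of the order of vanishing -/
theorem parity (T : Twists Q lam) {d : ℤ} (hd : Squarefree d) :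
    (-1 : ℝ) ^ (analyticOrderAt (T.ell d) (1 / 2)).toNat = T.w d := by
  have hfin := Pool.Agent.Y703.QT12.ord_ne_top T hd
  have hq : (2 * Real.pi / (T.q d : ℂ)) ≠ 0 := Pool.Agent.Y703.QT8.q_ne T hd
  set A : ℂ → ℂ := fun s => (2 * Real.pi / (T.q d : ℂ)) ^ (1 - s + 1 / 2) *
    (Complex.Gamma (1 - s + 1 / 2))⁻¹ *
      ((2 * Real.pi / (T.q d : ℂ)) ^ (s + 1 / 2) * (Complex.Gamma (s + 1 / 2))⁻¹)⁻¹ with hA
  have hG1 : Complex.Gamma 1 = 1 := Complex.Gamma_one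
  have hcont : ContinuousAt A (1 / 2) := by
    have c1 : ContinuousAt (fun s : ℂ => (2 * Real.pi / (T.q d : ℂ)) ^ (1 - s + 1 / 2)) (1 / 2) := by
      refine ContinuousAt.const_cpow (by fun_prop) (Or.inl hq)
    have c2 : ContinuousAt (fun s : ℂ => (2 * Real.pi / (T.q d : ℂ)) ^ (s + 1 / 2)) (1 / 2) := by
      refine ContinuousAt.const_cpow (by fun_prop) (Or.inl hq)
    have hd1 : ContinuousAt Complex.Gamma 1 := by
      refine (Complex.differentiableAt_Gamma 1 fun m h => ?_).continuousAt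
      have := congrArg Complex.re h
      simp at this
      have h0 : (0 : ℝ) ≤ m := Nat.cast_nonneg m
      linarith
    have c3 : ContinuousAt (fun s : ℂ => Complex.Gamma (s + 1 / 2)) (1 / 2) := by
      refine ContinuousAt.comp' (g := Complex.Gamma) ?_ (by fun_prop)
      have e : (1 / 2 + 1 / 2 : ℂ) = 1 := by norm_num
      rw [e]
      exact hd1
    have c4 : ContinuousAt (fun s : ℂ => Complex.Gamma (1 - s + 1 / 2)) (1 / 2) := by
      refine ContinuousAt.comp' (g := Complex.Gamma) ?_ (by fun_prop)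
      have e : (1 - 1 / 2 + 1 / 2 : ℂ) = 1 := by norm_num
      rw [e]
      exact hd1
    have e1 : (1 / 2 + 1 / 2 : ℂ) = 1 := by norm_num
    have e2 : (1 - 1 / 2 + 1 / 2 : ℂ) = 1 := by norm_num
    refine (c1.mul (c4.inv₀ ?_)).mul (ContinuousAt.inv₀ (c2.mul (c3.inv₀ ?_)) ?_)
    · rw [e2, hG1]; exact one_ne_zero
    · rw [e1, hG1]; exact one_ne_zero
    · show (2 * Real.pi / (T.q d : ℂ)) ^ ((1 / 2 : ℂ) + 1 / 2) *
        (Complex.Gamma ((1 / 2 : ℂ) + 1 / 2))⁻¹ ≠ 0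
      rw [e1, hG1, inv_one, mul_one, cpow_one]; exact hq
  have hA1 : A (1 / 2) = 1 := by
    have e1 : (1 / 2 + 1 / 2 : ℂ) = 1 := by norm_num
    have e2 : (1 - 1 / 2 + 1 / 2 : ℂ) = 1 := by norm_num
    simp only [hA, e1, e2, hG1, inv_one, mul_one, cpow_one]
    exact mul_inv_cancel₀ hq
  have hfe : ∀ᶠ s in 𝓝 (1 / 2 : ℂ), T.ell d (1 - s) = (T.w d : ℂ) * A s * T.ell d s := by
    have m1 : {s : ℂ | 0 < s.re} ∈ 𝓝 (1 / 2 : ℂ) :=
      (isOpen_lt continuous_const continuous_re).mem_nhds (by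
        show (0 : ℝ) < (1 / 2 : ℂ).re; norm_num)
    have m2 : {s : ℂ | s.re < 1} ∈ 𝓝 (1 / 2 : ℂ) :=
      (isOpen_lt continuous_re continuous_const).mem_nhds (by
        show (1 / 2 : ℂ).re < 1; norm_num)
    filter_upwards [m1, m2] with s h1 h2
    exact ell_fe T hd h1 h2
  have h := parity_aux (T.ell d) A (T.w d) rfl ((Pool.Agent.Y703.QT8.T8a T d hd).1.analyticAt _)
    hcont hA1 hfe hfin
  exact_mod_cast h

end Pool.Agent.Y763.QTP
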