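import Pool.Agent.Y692.QN.Gen
import Pool.Agent.TH936.AC.Wc2
import Pool.Agent.W283.HK.PW
import Pool.Agent.Y763.QTP.Tw

set_option autoImplicit false

/-! Project QT, parity: the sign of the twists of a Hecke character. -/

namespace Pool.Agent.Y763.QTP

open Complex
open Pool.Agent.W192.HK Pool.Agent.TH936.AC
open Pool.Agent.Y692.QN
open Pool.Agent.Y690 (cop_iff cop_congr cop_mono lift_cop ne_zero_of_cop sp_ne)
open Pool.Agent.Y19.QT
open Pool.Agent.H306R2.RZ (js)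

variable {R : Subring ℂ} {ω : ℂ} {D0 : ℕ} {f : Ideal R} {ψ : Ideal R → ℂ}

theorem F_pw : H_PW := Pool.Agent.W283.HK.PW.h_pw F_basic

theorem F_wc2 : A_WC2 := a_wc2 F_basic F_cls F_fp F_pw F_bar

/-- the functional equation for real `t` with constant `W` -/
def FEr (ψ : Ideal R → ℂ) (N m : ℕ) (W : ℂ) : Prop := ∀ t : ℝ, 0 < t →
  ∑' n : ℕ, (((cf ψ n).re * js n m : ℝ) : ℂ) *
      cexp (-(2 * Real.pi * n * (1 / (t : ℂ)) / (m * Real.sqrt N : ℝ))) =
    W * (t : ℂ) ^ 2 * ∑' n : ℕ, (((cf ψ n).re * js n m : ℝ) : ℂ) *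
      cexp (-(2 * Real.pi * n * (t : ℂ) / (m * Real.sqrt N : ℝ)))

theorem hram_of (h : GD R ω D0 f ψ) {p : ℕ} (hp : p.Prime) (hd : ¬ p ∣ D0 * cd f) :
    ¬ p ∣ D0 ∧ ∀ P : Ideal R, P.IsPrime → P ≠ ⊥ → P ∣ sp (p : R) → bar P = P → P = sp (p : R) := by
  have hQ := h.qp
  refine ⟨fun h' => hd (Dvd.dvd.mul_right h' _), ?_⟩
  have hcop := (h.good hp).2 hd
  intro P h1 h2 h3 h4
  have hPc : IsCoprime P f := by
    obtain ⟨J, hJ⟩ := h3
    rw [hJ] at hcop
    exact hcop.of_mul_left_left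
  rcases h.ram P h1 h2 h4 with ⟨q, hq, hPq⟩ | h5
  · have h6 : ((p : ℤ) : R) ∈ sp (q : R) := by
      rw [← hPq]
      push_cast
      exact Ideal.le_of_dvd h3 (Ideal.mem_span_singleton_self _)
    have h7 := int_mem hQ hq.pos h6
    have h8 : q ∣ p := by exact_mod_cast h7
    rw [hPq, (Nat.prime_dvd_prime_iff_eq hq hp).1 h8]
  · exact absurd hPc h5

theorem not_dvd_of {p m N : ℕ} (hp : p.Prime) (hpm : p ∣ m) (hcop : m.Coprime N) : ¬ p ∣ N := by
  intro hd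
  exact Nat.Prime.not_coprime_iff_dvd.2 ⟨p, hp, hpm, hd⟩ hcop

theorem hchm (h : GD R ω D0 f ψ) (m : ℕ) (ho : Odd m) (hsq : Squarefree m)
    (hcop : m.Coprime (D0 * cd f)) : HC 0 (sp (m : R)) (chm m) :=
  hc_chm h.qp h.disc m ho hsq fun _ hp hpm => hram_of h hp (not_dvd_of hp hpm hcop)

theorem hfm_of (h : GD R ω D0 f ψ) {m : ℕ} (hm0 : 0 < m)
    (hcop : m.Coprime (D0 * cd f)) : IsCoprime f (sp (m : R)) := by
  rw [cop_nat h.qp h.hc.ne hm0]
  exact (Nat.Coprime.coprime_dvd_right (dvd_mul_left _ _) hcop).symm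

theorem bd_of (h : GD R ω D0 f ψ) : ∃ C : ℝ, ∀ (m n : ℕ),
    |(cf ψ n).re * js n m| ≤ C * (n : ℝ) ^ 2 := by
  obtain ⟨C, hC, hle⟩ := h.le
  refine ⟨C, fun m n => ?_⟩
  rw [abs_mul]
  calc |(cf ψ n).re| * |js n m| ≤ ‖cf ψ n‖ * 1 :=
        mul_le_mul (Complex.abs_re_le_norm _) (Pool.Agent.Y705.QT.js_abs_le _ _) (abs_nonneg _)
          (norm_nonneg _)
    _ ≤ C * (n : ℝ) ^ 2 := by rw [mul_one]; exact hle n

theorem hQ0_of (h : GD R ω D0 f ψ) {m : ℕ} (hm0 : 0 < m) :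
    0 < (m * Real.sqrt ((D0 * cd f : ℕ) : ℝ) : ℝ) := by
  have h1 : 0 < Real.sqrt ((D0 * cd f : ℕ) : ℝ) := Real.sqrt_pos.2 (by exact_mod_cast h.Npos)
  have : (0 : ℝ) < m := by exact_mod_cast hm0
  positivity

theorem FEr_unique (h : GD R ω D0 f ψ) {m : ℕ} (hm0 : 0 < m) {W W' : ℂ}
    (h1 : FEr ψ (D0 * cd f) m W) (h2 : FEr ψ (D0 * cd f) m W') : W = W' := by
  obtain ⟨C, hb⟩ := bd_of h
  obtain ⟨t, ht, hT⟩ := Pool.Agent.Y153.QTN1.exists_ne (c := fun n => (cf ψ n).re * js n m) (hb m)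
    (by simp [cf_zero h.qp]) (by simp [cf_one h.qp h.top, js]) (hQ0_of h hm0)
  have e := (h1 t ht).symm.trans (h2 t ht)
  have htc : (t : ℂ) ^ 2 ≠ 0 := pow_ne_zero 2 (by exact_mod_cast ht.ne')
  exact mul_right_cancel₀ htc (mul_right_cancel₀ hT e)

/-- the functional equation of the twists, for any choice of the data -/
theorem real_fe (h : GD R ω D0 f ψ) (m : ℕ) (ho : Odd m) (hsq : Squarefree m)
    (hcop : m.Coprime (D0 * cd f)) {s : Finset (Ideal R)} {hh : Ideal R} {μ : R} {T : Finset R}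
    (hS : Sys (f * sp (m : R)) s hh μ T) :
    FEr ψ (D0 * cd f) m (Wc ω 1 (f * sp (m : R)) hh μ T (fun I => ψ I * chm m I)) := by
  have hQ := h.qp
  have hm0 : 0 < m := ho.pos
  have hχ := hchm h m ho hsq hcop
  have hfm := hfm_of h hm0 hcop
  have hψ := F_prod R ω hQ.qr 1 f (sp (m : R)) ψ (chm m) h.hc hχ hfm
  set q : Ideal R := f * sp (m : R) with hq
  have hqne : q ≠ ⊥ := hψ.ne
  have hth := F_theta R ω hQ.qr 1 le_rfl q _ hψ s hh μ T hS
  set W := Wc ω 1 q hh μ T (fun I => ψ I * chm m I) with hW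
  have hcf0 : 0 < cd f := cd_pos hQ h.hc.ne
  have hi := hQ.qr.im
  have hnm : Real.sqrt (nm q) = Real.sqrt (cd f) * m := by
    rw [nm_eq, hq, cd_mul hQ, cd_nat hQ]
    push_cast
    rw [Real.sqrt_mul (by positivity), Real.sqrt_sq (by positivity)]
  have hsN : Real.sqrt ((D0 * cd f : ℕ) : ℝ) = 2 * ω.im * Real.sqrt (cd f) := by
    push_cast
    rw [← h.disc, Real.sqrt_mul (by positivity)]
    congr 1
    rw [show 4 * ω.im ^ 2 = (2 * ω.im) ^ 2 by ring]
    exact Real.sqrt_sq (by positivity)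
  have hscf : 0 < Real.sqrt (cd f : ℝ) := Real.sqrt_pos.2 (by exact_mod_cast hcf0)
  have hmr : (0 : ℝ) < m := by exact_mod_cast hm0
  unfold FEr
  set Q : ℝ := m * Real.sqrt ((D0 * cd f : ℕ) : ℝ) with hQdef
  have hQ0 : 0 < Q := by
    rw [hQdef, hsN]
    positivity
  have hc0 : Real.pi / (ω.im * Real.sqrt (nm q)) = 2 * Real.pi / Q := by
    rw [hnm, hQdef, hsN]
    field_simp
  intro t ht
  have h1 := hth t ht
  have e1 : ∀ I : Ideal R, (Real.exp (-(Real.pi * nm I / (ω.im * Real.sqrt (nm q))) / t) : ℂ) =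
      (Real.exp (-((2 * Real.pi / Q / t) * nm I)) : ℂ) := by
    intro I
    congr 2
    rw [← hc0]
    ring
  have e2 : ∀ I : Ideal R, (Real.exp (-(Real.pi * nm I / (ω.im * Real.sqrt (nm q))) * t) : ℂ) =
      (Real.exp (-((2 * Real.pi / Q * t) * nm I)) : ℂ) := by
    intro I
    congr 2
    rw [← hc0]
    ring
  simp only [e1, e2] at h1
  have e3 : ∑' I : Ideal R, (starRingEnd ℂ) (ψ I * chm m I) *
      (Real.exp (-((2 * Real.pi / Q * t) * nm I)) : ℂ) =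
      ∑' I : Ideal R, ψ I * chm m I * (Real.exp (-((2 * Real.pi / Q * t) * nm I)) : ℂ) := by
    have h2 := h.theta_cd m (c := 2 * Real.pi / Q * t) (by positivity)
    rw [h2]
    have h3 : ∑' I : Ideal R, (starRingEnd ℂ) (ψ I * chm m I) *
        (Real.exp (-((2 * Real.pi / Q * t) * nm I)) : ℂ) =
        (starRingEnd ℂ) (∑' I : Ideal R, ψ I * chm m I *
          (Real.exp (-((2 * Real.pi / Q * t) * nm I)) : ℂ)) := by
      rw [Complex.conj_tsum]
      refine tsum_congr fun I => ?_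
      rw [map_mul _ _ ((Real.exp _ : ℝ) : ℂ), Complex.conj_ofReal]
    rw [h3, h2, Complex.conj_tsum]
    refine tsum_congr fun n => ?_
    rw [map_mul, Complex.conj_ofReal, Complex.conj_ofReal]
  rw [e3, h.theta_cd m (by positivity), h.theta_cd m (by positivity)] at h1
  have e4 : ∀ n : ℕ, cexp (-(2 * Real.pi * n * (1 / (t : ℂ)) / (Q : ℝ))) =
      (Real.exp (-((2 * Real.pi / Q / t) * n)) : ℂ) := by
    intro n
    push_cast
    congr 1
    ring
  have e5 : ∀ n : ℕ, cexp (-(2 * Real.pi * n * (t : ℂ) / (Q : ℝ))) =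
      (Real.exp (-((2 * Real.pi / Q * t) * n)) : ℂ) := by
    intro n
    push_cast
    congr 1
    ring
  simp only [e4, e5]
  rw [h1]

/-! ### the quadratic characters -/

theorem cd_bar (hQ : QP R ω) (I : Ideal R) : cd (bar I) = cd I := by
  obtain ⟨k1, k2, k3, k4, k5, k6, k7, k8, k9, k10, k11, k12, k13, k14⟩ := F_bar R ω hQ
  have := k8 I
  rw [nm_eq, nm_eq] at this
  exact_mod_cast this

theorem chm_bar (hQ : QP R ω) (m : ℕ) (I : Ideal R) : chm m (bar I) = chm m I := by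
  obtain ⟨k1, k2, k3, k4, k5, k6, k7, k8, k9, k10, k11, k12, k13, k14⟩ := F_bar R ω hQ
  by_cases hI : I = ⊥
  · rw [hI, k10]
  · have hb : bar I ≠ ⊥ := by
      intro h'
      apply hI
      rw [← k3 I, h', k10]
    rw [chm_of hI, chm_of hb, cd_bar hQ]

theorem chm_conj (m : ℕ) (I : Ideal R) : (starRingEnd ℂ) (chm m I) = chm m I := by
  by_cases hI : I = ⊥
  · rw [hI, chm_bot, map_zero]
  · rw [chm_of hI]
    exact map_intCast _ _

theorem cs_mul (h : GD R ω D0 f ψ) (m : ℕ) : CS (fun I => ψ I * chm m I) := by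
  intro I
  show ψ (bar I) * chm m (bar I) = (starRingEnd ℂ) (ψ I * chm m I)
  rw [h.cs, chm_bar h.qp, map_mul, chm_conj]

theorem chm_sp (hQ : QP R ω) (m : ℕ) {n : ℕ} (hn : 0 < n) (h : n.Coprime m) :
    chm m (sp (n : R)) = 1 := by
  rw [chm_of (sp_ne_bot hn), cd_nat hQ]
  have : jacobiSym ((n ^ 2 : ℕ) : ℤ) m = 1 := by
    push_cast
    exact jacobiSym.sq_one' (by rw [Int.gcd_natCast_natCast]; exact h)
  rw [this]
  norm_num

theorem chm_sq {m : ℕ} {I : Ideal R} (h : chm m I ≠ 0) : chm m I ^ 2 = 1 := by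
  by_cases hI : I = ⊥
  · rw [hI, chm_bot] at h
    exact absurd rfl h
  · rw [chm_of hI] at h ⊢
    rcases jacobiSym.trichotomy (cd I : ℤ) m with h3 | h3 | h3
    · rw [h3] at h
      exact absurd (by norm_num) h
    · rw [h3]; norm_num
    · rw [h3]; norm_num

theorem rg_chm (hQ : QP R ω) {p : ℕ} (hp : p.Prime) (hχ : HC 0 (sp (p : R)) (chm p)) :
    RG p (chm p : Ideal R → ℂ) := by
  refine ⟨hp, ⟨hχ.ne, hχ.mul, hχ.zero, fun α h0 h1 => ?_⟩, fun n hn => ?_⟩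
  · rw [hχ.princ α h0 h1, pow_zero]
  · rcases Nat.eq_zero_or_pos n with rfl | hn0
    · rw [Nat.coprime_zero_left] at hn
      exact absurd hn hp.ne_one
    · exact chm_sp hQ p hn0 hn

theorem od_chm (hQ : QP R ω) {p : ℕ} (hp : p.Prime) (hχ : HC 0 (sp (p : R)) (chm p)) :
    Od (chm p : Ideal R → ℂ) 2 := by
  refine ⟨two_pos, fun I h => chm_sq h, fun n hn h => ?_⟩
  have hpt : sp (p : R) ≠ ⊤ := by
    intro h
    have h1 := cd_nat hQ p
    rw [h, cd_top] at h1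
    have := hp.one_lt
    nlinarith
  obtain ⟨α, h0, -, h2, h3⟩ := hχ.prim ⊤ (lt_top_iff_ne_top.2 hpt)
  by_contra hlt
  have hn1 : n = 1 := by omega
  subst hn1
  apply h3
  rw [pow_zero]
  have h4 : chm p (sp α) ≠ 0 := by
    intro h4
    rcases (hχ.zero (sp α)).1 h4 with h5 | h5
    · exact sp_ne h0 h5
    · exact h5 h2
  have := h (sp α) h4
  rwa [pow_one] at this

theorem pw_one (χ : Ideal R → ℂ) : pw χ 1 = χ := by
  funext I
  unfold pw
  split_ifs with h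
  · exact h.symm
  · exact pow_one _

/-! ### inert and split primes -/

theorem quad (hQ : QP R ω) (hD : 4 * ω.im ^ 2 = (D0 : ℝ)) :
    ∃ n t : ℤ, ω ^ 2 = n + t * ω ∧ (D0 : ℤ) = -4 * n - t ^ 2 ∧
      ∀ x y : ℤ, Complex.normSq ((x : ℂ) + y * ω) = ((x ^ 2 + t * x * y - n * y ^ 2 : ℤ) : ℝ) := by
  have hω : ω ∈ R := (hQ.qr.mem ω).2 ⟨0, 1, by push_cast; ring⟩
  obtain ⟨n, t, hnt⟩ := (hQ.qr.mem (ω ^ 2)).1 (R.pow_mem hω 2)
  have him := congrArg Complex.im hnt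
  have hre := congrArg Complex.re hnt
  simp [pow_two] at him hre
  have hi := hQ.qr.im
  have ht : (t : ℝ) = 2 * ω.re := by
    have h1 : ω.im * (2 * ω.re - t) = 0 := by linarith
    rcases mul_eq_zero.1 h1 with h | h
    · exact absurd h hi.ne'
    · linarith
  have hn : (n : ℝ) = -(Complex.normSq ω) := by
    rw [Complex.normSq_apply]
    rw [ht] at hre
    nlinarith
  refine ⟨n, t, hnt, ?_, fun x y => ?_⟩
  · have : ((D0 : ℤ) : ℝ) = ((-4 * n - t ^ 2 : ℤ) : ℝ) := by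
      push_cast
      rw [← hD, hn, ht, Complex.normSq_apply]
      ring
    exact_mod_cast this
  · push_cast
    rw [hn, ht, Complex.normSq_apply, Complex.normSq_apply]
    simp
    ring

theorem js_inert (hQ : QP R ω) (hD : 4 * ω.im ^ 2 = (D0 : ℝ)) {p : ℕ} (hp : p.Prime) (hp2 : p ≠ 2)
    (hin : (sp (p : R)).IsPrime) : js (-(D0 : ℤ)) p = -1 := by
  have : Fact p.Prime := ⟨hp⟩
  obtain ⟨n, t, h1, h2, -⟩ := quad hQ hD
  unfold js
  rw [← jacobiSym.legendreSym.to_jacobiSym]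
  have key : legendreSym p (-(D0 : ℤ)) = -1 := by
    rw [legendreSym.eq_neg_one_iff]
    rintro ⟨v, hv⟩
    obtain ⟨u, rfl⟩ := ZMod.intCast_surjective v
    have hd : (p : ℤ) ∣ -(D0 : ℤ) - u * u := by
      rw [← ZMod.intCast_eq_intCast_iff_dvd_sub]
      rw [hv]
      push_cast
      rfl
    obtain ⟨k, hk⟩ := hd
    have hω : ω ∈ R := (hQ.qr.mem ω).2 ⟨0, 1, by push_cast; ring⟩
    set W : R := ⟨ω, hω⟩ with hW
    set β : R := 2 * W - (t : R) with hβ
    have hβ2 : (β - (u : R)) * (β + (u : R)) = (p : R) * (k : R) := by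
      apply Subtype.ext
      push_cast
      have e1 : (β : ℂ) = 2 * ω - t := by rw [hβ]; push_cast; rfl
      rw [e1]
      have e2 : ((-(D0 : ℤ) - u * u : ℤ) : ℂ) = ((p * k : ℤ) : ℂ) := by rw [hk]
      have e3 : ((D0 : ℤ) : ℂ) = ((-4 * n - t ^ 2 : ℤ) : ℂ) := by rw [h2]
      push_cast at e2 e3
      linear_combination 4 * h1 + e2 + e3
    have hmem : (β - (u : R)) * (β + (u : R)) ∈ sp (p : R) := by
      rw [hβ2]
      exact Ideal.mul_mem_right _ _ (Ideal.mem_span_singleton_self _)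
    have hno : ∀ c : ℤ, ¬ (2 * W - (c : R)) ∈ sp (p : R) := by
      intro c hc
      obtain ⟨r, hr⟩ := Ideal.mem_span_singleton.1 hc
      obtain ⟨x, y, hxy⟩ := (hQ.qr.mem (r : ℂ)).1 r.2
      have e : (2 * ω - c : ℂ) = (p : ℂ) * (x + y * ω) := by
        have := congrArg (fun z : R => (z : ℂ)) hr
        push_cast at this
        rw [← hxy]
        exact this
      have him := congrArg Complex.im e
      simp at him
      have hi := hQ.qr.im
      have h3 : ω.im * (2 - (p : ℝ) * y) = 0 := by linarith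
      rcases mul_eq_zero.1 h3 with h | h
      · exact hi.ne' h
      · have h4 : (2 : ℤ) = p * y := by
          have : ((2 : ℤ) : ℝ) = ((p * y : ℤ) : ℝ) := by push_cast; linarith
          exact_mod_cast this
        have h5 : (p : ℤ) ∣ 2 := ⟨y, h4⟩
        have h6 : p ∣ 2 := by exact_mod_cast h5
        exact hp2 ((Nat.prime_dvd_prime_iff_eq hp Nat.prime_two).1 h6)
    rcases hin.mem_or_mem hmem with h | h
    · apply hno (t + u)
      have : β - (u : R) = 2 * W - ((t + u : ℤ) : R) := by rw [hβ]; push_cast; ring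
      rwa [← this]
    · apply hno (t - u)
      have : β + (u : R) = 2 * W - ((t - u : ℤ) : R) := by rw [hβ]; push_cast; ring
      rwa [← this]
  rw [key]
  norm_num

theorem js_split (hQ : QP R ω) (hD : 4 * ω.im ^ 2 = (D0 : ℝ)) {p : ℕ} (hp : p.Prime) (hp2 : p ≠ 2)
    (hpD : ¬ p ∣ D0) {P : Ideal R} (hP : cd P = p) : js (-(D0 : ℤ)) p = 1 := by
  have : Fact p.Prime := ⟨hp⟩
  obtain ⟨n, t, h1, h2, h3⟩ := quad hQ hD
  have hpid := hQ.pid
  obtain ⟨α, hα⟩ : ∃ α : R, P = Ideal.span {α} := (hpid.principal P).principal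
  obtain ⟨x, y, hxy⟩ := (hQ.qr.mem (α : ℂ)).1 α.2
  have h4 := cd_sp hQ α
  rw [hxy, h3] at h4
  have h5 : (p : ℤ) = x ^ 2 + t * x * y - n * y ^ 2 := by
    have : ((p : ℕ) : ℝ) = ((x ^ 2 + t * x * y - n * y ^ 2 : ℤ) : ℝ) := by
      rw [← h4, ← hP, hα]
    exact_mod_cast this
  have h6 : 4 * (p : ℤ) = (2 * x + t * y) ^ 2 + D0 * y ^ 2 := by
    rw [h2, h5]; ring
  have hpp : Prime (p : ℤ) := Nat.prime_iff_prime_int.1 hp
  have hy : ¬ (p : ℤ) ∣ y := by
    intro hy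
    have h7 : (p : ℤ) ∣ (2 * x + t * y) ^ 2 := by
      have : (2 * x + t * y) ^ 2 = 4 * (p : ℤ) - D0 * y ^ 2 := by rw [h6]; ring
      rw [this]
      exact dvd_sub (Dvd.intro_left _ rfl) (Dvd.dvd.mul_left (dvd_pow hy two_ne_zero) _)
    have h8 := hpp.dvd_of_dvd_pow h7
    have h9 : (p : ℤ) ^ 2 ∣ 4 * (p : ℤ) := by
      rw [h6]
      exact dvd_add (pow_dvd_pow_of_dvd h8 2) (Dvd.dvd.mul_left (pow_dvd_pow_of_dvd hy 2) _)
    rw [sq] at h9
    have hp0 : (p : ℤ) ≠ 0 := hpp.ne_zero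
    have h10 : (p : ℤ) ∣ 4 := (mul_dvd_mul_iff_right hp0).1 h9
    have h11 : p ∣ 2 ^ 2 := by exact_mod_cast h10
    exact hp2 ((Nat.prime_dvd_prime_iff_eq hp Nat.prime_two).1 (hp.dvd_of_dvd_pow h11))
  unfold js
  rw [← jacobiSym.legendreSym.to_jacobiSym]
  have hy0 : (y : ZMod p) ≠ 0 := by
    rw [Ne, ZMod.intCast_zmod_eq_zero_iff_dvd]
    exact hy
  have hD0 : (((-(D0 : ℤ)) : ℤ) : ZMod p) ≠ 0 := by
    rw [Ne, ZMod.intCast_zmod_eq_zero_iff_dvd, dvd_neg]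
    intro h
    exact hpD (by exact_mod_cast h)
  have key : legendreSym p (-(D0 : ℤ)) = 1 := by
    rw [legendreSym.eq_one_iff p hD0]
    refine ⟨((2 * x + t * y : ℤ) : ZMod p) / (y : ZMod p), ?_⟩
    have h7 := congrArg (fun z : ℤ => (z : ZMod p)) h6
    push_cast at h7
    rw [ZMod.natCast_self, mul_zero] at h7
    field_simp
    push_cast
    linear_combination h7
  rw [key]
  norm_num

theorem psi_sp (h : GD R ω D0 f ψ) {p : ℕ} (hp : p.Prime) (hp2 : p ≠ 2)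
    (hd : ¬ p ∣ D0 * cd f) : ψ (sp (p : R)) = (js (-(D0 : ℤ)) p : ℝ) * (p : ℂ) := by
  have hQ := h.qp
  have hcop := (h.good hp).2 hd
  obtain ⟨hpD, hram⟩ := hram_of h hp hd
  by_cases hin : (sp (p : R)).IsPrime
  · rw [h.inert p hp hcop hin, js_inert hQ h.disc hp hp2 hin]
    push_cast
    ring
  · obtain ⟨P, hPp, hPb, hPP, hc2, hcd⟩ := split_ex hQ hp hram hin
    rw [js_split hQ h.disc hp hp2 hpD hcd]
    have h2 : ψ (sp (p : R)) = (p : ℂ) := by
      rw [← hPP, h.hc.mul, h.cs P, Complex.mul_conj, Complex.normSq_eq_norm_sq, h.norm, hcd]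
      · push_cast; rfl
      · intro h3
        have h4 : ψ (sp (p : R)) = 0 := by rw [← hPP, h.hc.mul, h3, zero_mul]
        rcases (h.hc.zero _).1 h4 with h5 | h5
        · exact sp_ne_bot hp.pos h5
        · exact h5 hcop
    rw [h2]
    push_cast
    ring

/-! ### the sign -/

theorem chm_p_ideal (h : GD R ω D0 f ψ) {p m : ℕ} (hm0 : 0 < m)
    (hcop : Nat.Coprime m p) : chm p (f * sp (m : R)) = ((js (cd f : ℤ) p : ℝ) : ℂ) := by
  have hQ := h.qp
  have hne : f * sp (m : R) ≠ ⊥ := mul_ne_bot hQ h.hc.ne (sp_ne_bot hm0)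
  rw [chm_of hne, cd_mul hQ, cd_nat hQ]
  unfold js
  have : jacobiSym ((cd f * m ^ 2 : ℕ) : ℤ) p = jacobiSym (cd f : ℤ) p := by
    push_cast
    rw [jacobiSym.mul_left, jacobiSym.sq_one' (by rw [Int.gcd_natCast_natCast]; exact hcop),
      mul_one]
  rw [this]
  push_cast
  rfl

theorem step (h : GD R ω D0 f ψ) {p m : ℕ} (hp : p.Prime) (ho : Odd (p * m))
    (hsq : Squarefree (p * m)) (hcop : (p * m).Coprime (D0 * cd f)) {W : ℂ}
    (hW : FEr ψ (D0 * cd f) m W) :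
    FEr ψ (D0 * cd f) (p * m) (W * ((js (-((D0 * cd f : ℕ) : ℤ)) p : ℝ) : ℂ)) := by
  have hQ := h.qp
  obtain ⟨ho1, ho2⟩ := Nat.odd_mul.1 ho
  have hm0 : 0 < m := ho2.pos
  have hpm : Nat.Coprime p m := Nat.coprime_of_squarefree_mul hsq
  have hsqm : Squarefree m := hsq.squarefree_of_dvd (dvd_mul_left _ _)
  have hcm : m.Coprime (D0 * cd f) := Nat.Coprime.coprime_mul_left hcop
  have hpN : ¬ p ∣ D0 * cd f := not_dvd_of hp (dvd_mul_right p m) hcop
  have hp2 : p ≠ 2 := by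
    rintro rfl
    exact (by decide : ¬ Odd 2) ho1
  have hχm := hchm h m ho2 hsqm hcm
  have hcp : p.Coprime (D0 * cd f) := (Nat.Prime.coprime_iff_not_dvd hp).2 hpN
  have hχp := hchm h p ho1 hp.squarefree hcp
  have hfm := hfm_of h hm0 hcm
  have hψ := F_prod R ω hQ.qr 1 f (sp (m : R)) ψ (chm m) h.hc hχm hfm
  obtain ⟨φ, T1, hS1, hstep⟩ := F_wc2 R ω hQ (f * sp (m : R)) (fun I => ψ I * chm m I) hψ
    (cs_mul h m)
  have hcop2 : IsCoprime (f * sp (m : R)) (sp (p : R)) := by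
    refine IsCoprime.mul_left (hfm_of h hp.pos hcp) ?_
    rw [cop_nat hQ (sp_ne_bot hm0) hp.pos, cd_nat hQ]
    exact Nat.Coprime.pow_left 2 hpm.symm
  obtain ⟨T, hS2, hval⟩ := hstep p hp hcop2 (chm p) hχp (rg_chm hQ hp hχp) 2 (od_chm hQ hp hχp)
  have hv := hval 1 (by norm_num)
  rw [pw_one] at hv
  -- the constant for `m`
  have hW1 : Wc ω 1 (f * sp (m : R)) ⊤ φ T1 (fun I => ψ I * chm m I) = W :=
    FEr_unique h hm0 (real_fe h m ho2 hsqm hcm hS1) hW
  -- the ideal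
  have eI : f * sp (m : R) * sp (p : R) = f * sp ((p * m : ℕ) : R) := by
    rw [mul_assoc, ← Pool.Agent.Y690.sp_mul]
    push_cast
    rw [mul_comm (m : R) (p : R)]
  have eF : (fun I : Ideal R => ψ I * chm m I * chm p I) = fun I => ψ I * chm (p * m) I := by
    funext I
    by_cases hI : I = ⊥
    · subst hI
      rw [chm_bot, chm_bot, chm_bot]
      ring
    · have : NeZero p := ⟨hp.ne_zero⟩
      have : NeZero m := ⟨hm0.ne'⟩
      rw [chm_of hI, chm_of hI, chm_of hI, jacobiSym.mul_right]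
      push_cast
      ring
  rw [eI] at hS2 hv
  have hv' : Wc ω 1 (f * sp ((p * m : ℕ) : R)) ⊤ (φ * (p : R)) T (fun I => ψ I * chm (p * m) I) =
      W * ((js (-((D0 * cd f : ℕ) : ℤ)) p : ℝ) : ℂ) := by
    rw [← eF]
    rw [show (fun I : Ideal R => ψ I * chm m I * chm p I) =
      (fun I : Ideal R => (fun I => ψ I * chm m I) I * chm p I) from rfl] at *
    rw [hv, hW1, chm_p_ideal h hm0 hpm.symm]
    have hpc : (p : ℂ) ≠ 0 := by exact_mod_cast hp.ne_zero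
    have e1 : (ψ (sp (p : R)) * chm m (sp (p : R))) / (p : ℂ) = ((js (-(D0 : ℤ)) p : ℝ) : ℂ) := by
      rw [psi_sp h hp hp2 hpN, chm_sp hQ m hp.pos hpm]
      field_simp
    have e2 : js (-((D0 * cd f : ℕ) : ℤ)) p = js (-(D0 : ℤ)) p * js (cd f : ℤ) p := by
      have : (-((D0 * cd f : ℕ) : ℤ)) = (-(D0 : ℤ)) * (cd f : ℤ) := by push_cast; ring
      rw [this, js_mul_left]
    rw [e2]
    push_cast
    rw [← e1]
    ring
  rw [← hv']
  exact real_fe h (p * m) ho hsq hcop hS2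

/-- the sign of the functional equations -/
theorem sign_all (h : GD R ω D0 f ψ) : ∃ W0 : ℂ, ∀ m : ℕ, Odd m → Squarefree m →
    m.Coprime (D0 * cd f) →
      FEr ψ (D0 * cd f) m (W0 * ((js (-((D0 * cd f : ℕ) : ℤ)) m : ℝ) : ℂ)) := by
  have hQ := h.qp
  obtain ⟨_, _, _, hcls⟩ := F_cls R ω hQ.qr
  have h1 : f * sp ((1 : ℕ) : R) ≠ ⊥ := mul_ne_bot hQ h.hc.ne (sp_ne_bot one_pos)
  obtain ⟨s, hh, μ, T, -, hS⟩ := hcls _ h1
  refine ⟨Wc ω 1 (f * sp ((1 : ℕ) : R)) hh μ T (fun I => ψ I * chm 1 I), fun m => ?_⟩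
  induction m using Nat.strong_induction_on with
  | _ m ih =>
    intro ho hsq hcop
    by_cases hm1 : m = 1
    · subst hm1
      have : js (-((D0 * cd f : ℕ) : ℤ)) 1 = 1 := by unfold js; simp
      rw [this]
      push_cast
      rw [mul_one]
      have := real_fe h 1 ho hsq hcop hS
      exact_mod_cast this
    · obtain ⟨p, hpp, m', rfl⟩ := Nat.exists_prime_and_dvd hm1
      have ho2 := (Nat.odd_mul.1 ho).2
      have hlt : m' < p * m' := by
        have := hpp.one_lt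
        have := ho2.pos
        nlinarith
      have h2 := ih m' hlt ho2 (hsq.squarefree_of_dvd (dvd_mul_left _ _))
        (Nat.Coprime.coprime_mul_left hcop)
      have h3 := step h hpp ho hsq hcop h2
      have : NeZero p := ⟨hpp.ne_zero⟩
      have : NeZero m' := ⟨ho2.pos.ne'⟩
      have e : js (-((D0 * cd f : ℕ) : ℤ)) (p * m') =
          js (-((D0 * cd f : ℕ) : ℤ)) m' * js (-((D0 * cd f : ℕ) : ℤ)) p := by
        unfold js
        rw [jacobiSym.mul_right]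
        push_cast
        ring
      rw [e]
      push_cast at h3 ⊢
      rw [← mul_assoc]
      exact h3

/-- the coefficients of a symmetric Hecke character satisfy `AFS` -/
theorem GD_afs (h : GD R ω D0 f ψ) (a b : ℤ)
    (hpt : ∀ p : ℕ, p.Prime → ¬ (p : ℤ) ∣ 2 * (4 * a ^ 3 + 27 * b ^ 2) →
      ¬ p ∣ D0 * cd f ∧ cf ψ p = (ap a b p : ℂ)) : AFS a b (D0 * cd f) (cf ψ) := by
  refine ⟨h.af a b hpt, ?_⟩
  obtain ⟨W0, hW⟩ := sign_all h
  obtain ⟨C, hb⟩ := bd_of h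
  have h1 := hW 1 odd_one squarefree_one (Nat.coprime_one_left _)
  have hj : js (-((D0 * cd f : ℕ) : ℤ)) 1 = 1 := by unfold js; simp
  rw [hj] at h1
  push_cast at h1
  rw [mul_one] at h1
  obtain ⟨w, hw1, hw2⟩ := Pool.Agent.Y153.QTN1.w_sq (c := fun n => (cf ψ n).re * js n 1) (hb 1)
    (by simp [cf_zero h.qp]) (by simp [cf_one h.qp h.top, js]) (hQ0_of h one_pos) W0 (by
      intro t ht
      have := h1 t ht
      exact_mod_cast this)
  refine ⟨w, hw1, fun m ho hsq hcop z hz => ?_⟩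
  have h2 := hW m ho hsq hcop
  rw [← hw2] at h2
  have h5 := Pool.Agent.Y153.QT.fe_ext (c := fun n => (cf ψ n).re * js n m) (hb m)
    (hQ0_of h ho.pos) _ h2 z hz
  have e6 : ∀ n : ℕ, cf ψ n * js n m = (((cf ψ n).re * js n m : ℝ) : ℂ) := by
    intro n
    rw [Complex.ofReal_mul, ← h.re n]
  simp only [e6]
  rw [h5]
  push_cast
  ring

end Pool.Agent.Y763.QTP
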