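import Pool.Agent.Y763.QTP.Cm
import Pool.Agent.Y692.QN.Fin
import Pool.Agent.Y692.QN.Zi
import Pool.Agent.Y692.QTN4
import Pool.Agent.Y153.QTN3F

set_option autoImplicit false

/-! Project QT, parity: the curves with `j = 0` and `j = 1728` (after `Y692.QN.Fin`, `Y692.QN.Zi`,
`Y692.QTN4`, with the sign). -/

open Complex

namespace Pool.Agent.Y763.QTP

open Pool.Agent.W192.HK Pool.Agent.TH936.AC
open Pool.Agent.Y690 (cop_iff cop_congr cop_mono lift_cop ne_zero_of_cop sp_ne)
open Pool.Agent.Y19.QT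
open Pool.Agent.Y692.QN

/-- the main assembly -/
theorem afs_of {A : Type} [CommRing A] (ι : A →+* ℂ) (hι : Function.Injective ι) (st : A → A)
    (hst : ∀ α, ι (st α) = (starRingEnd ℂ) (ι α)) {ω : ℂ} (hQ : QP ι.range ω) {D0 : ℕ}
    (hD : 4 * ω.im ^ 2 = (D0 : ℝ)) {m : ℕ} {θ : A → ℂ} (hm : 0 < m)
    (hmul : ∀ α β : A, θ (α * β) = θ α * θ β)
    (hper : ∀ α β : A, (m : A) ∣ α - β → θ α = θ β)
    (hzero : ∀ α : A, θ α = 0 ↔ ¬ IsCoprime α (m : A))
    (hunit : ∀ u : A, IsUnit u → θ u * ι u = 1)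
    (hbar : ∀ α : A, θ (st α) = (starRingEnd ℂ) (θ α))
    (M : ℕ)
    (hin : ∀ p p' : ℕ, p.Prime → p'.Prime → (∀ α : A, Complex.normSq (ι α) ≠ p) → ¬ p ∣ D0 →
      p' % D0 = p % D0 → M < p' → θ (p' : A) = -1) (a b : ℤ)
    (hpt : ∀ p : ℕ, p.Prime → ¬ (p : ℤ) ∣ 2 * (4 * a ^ 3 + 27 * b ^ 2) →
      ¬ p ∣ m ∧ ¬ p ∣ D0 ∧ (((∀ α : A, Complex.normSq (ι α) ≠ p) ∧ ap a b p = 0) ∨
        ∃ α : A, Complex.normSq (ι α) = p ∧
          (ap a b p : ℂ) = θ α * ι α + (starRingEnd ℂ) (θ α * ι α))) :
    ∃ (N : ℕ) (f : ℕ → ℂ), AFS a b N f := by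
  classical
  set R := ι.range with hR
  let e : A ≃+* R := RingEquiv.ofBijective ι.rangeRestrict
    ⟨fun x y h => hι (congrArg Subtype.val h), ι.rangeRestrict_surjective⟩
  have he : ∀ x : A, ((e x : R) : ℂ) = ι x := fun x => rfl
  have hes : ∀ x : R, ι (e.symm x) = (x : ℂ) := by
    intro x
    rw [← he, RingEquiv.apply_symm_apply]
  have hImp : Imp R m (fun x => θ (e.symm x)) := by
    refine ⟨hm, ?_, ?_, ?_, ?_, ?_⟩
    · intro α β
      rw [map_mul, hmul]
    · intro α β h
      apply hper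
      obtain ⟨x, hx⟩ := Ideal.mem_span_singleton.1 h
      refine ⟨e.symm x, ?_⟩
      rw [← map_sub, hx, map_mul, map_natCast]
    · intro α
      rw [hzero, Ideal.isCoprime_span_singleton_iff]
      constructor
      · intro h1 h2
        apply h1
        have := h2.map (e.symm : R →+* A)
        simpa using this
      · intro h1 h2
        apply h1
        have := h2.map (e : A →+* R)
        simpa using this
    · intro u hu
      rw [← hes u]
      exact hunit _ (hu.map e.symm)
    · intro α β hβ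
      rw [← hbar]
      congr 1
      apply hι
      rw [hst, hes, hes, hβ]
  obtain ⟨f, ψ, hψ, hcs, hmf, hval, hpr⟩ := prim_exists hQ F_bar hImp
  have hcopf : ∀ p : ℕ, p.Prime → ¬ p ∣ m → IsCoprime (sp (p : R)) (sp (m : R)) := by
    intro p hp hpm
    rw [cop_nat hQ (sp_ne_bot hp.pos) hm, cd_nat hQ]
    exact Nat.Coprime.pow_left 2 ((Nat.Prime.coprime_iff_not_dvd hp).2 hpm)
  have hvn : ∀ p : ℕ, p.Prime → ¬ p ∣ m → ψ (sp (p : R)) = θ (p : A) * (p : ℂ) := by
    intro p hp hpm
    rw [hval _ (hcopf p hp hpm)]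
    simp
  have hnoα : ∀ p : ℕ, p.Prime → (sp (p : R)).IsPrime → ∀ α : A, Complex.normSq (ι α) ≠ p := by
    intro p hp hin α h
    have h1 : cd (sp (e α)) = p := by
      have := cd_sp hQ (e α)
      rw [he, h] at this
      exact_mod_cast this
    refine inert_no hQ hp hin ?_ h1
    intro h2
    rw [h2, cd_bot hQ] at h1
    exact hp.ne_zero h1.symm
  have hfne : f ≠ ⊥ := hψ.ne
  have hcdf : 0 < cd f := cd_pos hQ hfne
  have hram : Ram f := F_ram R ω hQ f ψ hψ hcs
  have hG : GD R ω D0 f ψ := by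
    refine ⟨hQ, hD, hψ, hcs, fun p hp hcop hinp => ?_⟩
    have hpD : ¬ p ∣ D0 := fun h => ram_not_cop hQ hD hram hp h hcop
    have hpf : Nat.Coprime (cd f) p := (cop_nat hQ hfne hp.pos).1 hcop.symm
    have hD0 : 0 < D0 := by
      rcases Nat.eq_zero_or_pos D0 with h | h
      · exact absurd (h ▸ dvd_zero p) hpD
      · exact h
    have hN0 : D0 * cd f ≠ 0 := (Nat.mul_pos hD0 hcdf).ne'
    have : NeZero (D0 * cd f) := ⟨hN0⟩
    have hpN : Nat.Coprime p (D0 * cd f) :=
      Nat.Coprime.mul_right ((Nat.Prime.coprime_iff_not_dvd hp).2 hpD) hpf.symm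
    obtain ⟨p', hp'1, hp'2, hp'3⟩ := Nat.forall_exists_prime_gt_and_eq_mod
      (q := D0 * cd f) (a := (p : ZMod (D0 * cd f))) ((ZMod.isUnit_iff_coprime p _).2 hpN) (max m M)
    have hmod : p' ≡ p [MOD D0 * cd f] := (ZMod.natCast_eq_natCast_iff _ _ _).1 hp'3
    have hp'm : ¬ p' ∣ m := fun h => absurd (Nat.le_of_dvd hm h)
      (not_le.2 (lt_of_le_of_lt (le_max_left _ _) hp'1))
    have h1 := hin p p' hp hp'2 (hnoα p hp hinp) hpD
      ((Nat.ModEq.of_dvd (dvd_mul_right _ _) hmod)) (lt_of_le_of_lt (le_max_right _ _) hp'1)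
    have h2 := hvn p' hp'2 hp'm
    rw [h1] at h2
    have hcd : ((p : R) - (p' : R)) ∈ f := by
      have h3 : (cd f : ℤ) ∣ (p : ℤ) - p' := by
        have := (Nat.ModEq.of_dvd (dvd_mul_left _ _) hmod)
        exact (Nat.modEq_iff_dvd.1 this)
      obtain ⟨k, hk⟩ := h3
      have h4 : ((p : R) - (p' : R)) = ((cd f : ℕ) : R) * (k : R) := by
        have := congrArg (fun z : ℤ => (z : R)) hk
        push_cast at this
        exact this
      rw [h4]
      exact f.mul_mem_right _ (mem_cd hQ hfne)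
    have hp0 : (p : R) ≠ 0 := by
      intro h
      exact sp_ne_bot (R := R) hp.pos (by rw [h, Ideal.span_singleton_eq_bot])
    have hp'0 : (p' : R) ≠ 0 := by
      intro h
      exact sp_ne_bot (R := R) hp'2.pos (by rw [h, Ideal.span_singleton_eq_bot])
    have h5 := hpr (p : R) (p' : R) hcop hp'0 hp0 hcd
    rw [h2] at h5
    push_cast at h5
    have h6 : (p' : ℂ) ≠ 0 := by exact_mod_cast hp'2.ne_zero
    apply mul_right_cancel₀ h6
    rw [h5]
    ring
  refine ⟨_, _, GD_afs hG a b fun p hp hgood => ?_⟩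
  obtain ⟨h1, h2, h3⟩ := hpt p hp hgood
  have hcm := hcopf p hp h1
  have hcf : IsCoprime (sp (p : R)) f := cop_le hmf hcm
  have hdN := (hG.good hp).1 hcf
  refine ⟨hdN, ?_⟩
  rcases h3 with ⟨h4, h5⟩ | ⟨α, h4, h5⟩
  · rw [h5]
    unfold cf
    rw [Int.cast_zero]
    refine Finset.sum_eq_zero fun I hI => ?_
    obtain ⟨h6, h7⟩ := (mem_SN hQ).1 hI
    have hpid := hQ.pid
    obtain ⟨α, hα⟩ : ∃ α : R, I = Ideal.span {α} := (hpid.principal I).principal
    exfalso
    apply h4 (e.symm α)
    rw [hes]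
    have := cd_sp hQ α
    rw [← this]
    have h8 : cd (sp α) = p := by rw [← h7, hα]
    rw [h8]
  · have h6 : cd (sp (e α)) = p := by
      have := cd_sp hQ (e α)
      rw [he, h4] at this
      exact_mod_cast this
    have h7 : IsCoprime (sp (e α)) (sp (m : R)) := by
      rw [cop_nat hQ _ hm, h6]
      · exact (Nat.Prime.coprime_iff_not_dvd hp).2 h1
      · intro h8
        rw [h8, cd_bot hQ] at h6
        exact hp.ne_zero h6.symm
    rw [hG.val hp hdN h6, hval _ h7, h5]
    simp only [RingEquiv.symm_apply_apply, he]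


theorem quartic_afs (A : ℤ) (hA : A ≠ 0) (h : QuarticData A) :
    ∃ (N : ℕ) (f : ℕ → ℂ), AFS A 0 N f := by
  obtain ⟨m, θ, hm, hpm, hmul, hper, hzero, hunit, hstar, hin, hpt⟩ := h
  have hnorm : ∀ α : GaussianInt, Complex.normSq (GaussianInt.toComplex α) = (α.norm : ℝ) := by
    intro α
    rw [GaussianInt.toComplex_def, gi_normSq, Zsqrtd.norm_def]
    push_cast
    ring
  refine afs_of GaussianInt.toComplex (fun x y h => GaussianInt.toComplex_inj.1 h)
    (fun α => star α) (fun α => ?_) gi_qp (D0 := 4) (by simp) hm hmul hper hzero ?_ hstar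
    (2 * A).natAbs ?_ A 0 ?_
  · rw [GaussianInt.toComplex_star]
  · intro u hu
    rw [← gz_eq]
    exact hunit u hu
  · intro p p' hp hp' hno h4 hmod hlt
    have hp3 : p % 4 = 3 := by
      by_contra hp3
      have : Fact p.Prime := ⟨hp⟩
      obtain ⟨a, b, hab⟩ := Nat.Prime.sq_add_sq hp3
      apply hno ⟨a, b⟩
      rw [hnorm, Zsqrtd.norm_def]
      have : (a : ℤ) ^ 2 + (b : ℤ) ^ 2 = p := by exact_mod_cast hab
      have h5 : (a : ℤ) * a - -1 * b * b = p := by linarith
      show (((a : ℤ) * a - -1 * b * b : ℤ) : ℝ) = p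
      rw [h5]
      push_cast
      rfl
    refine hin p' hp' (by omega) ?_
    intro hd
    have h2A : (2 * A) ≠ 0 := mul_ne_zero two_ne_zero hA
    have := Int.le_of_dvd (Int.natAbs_pos.2 h2A |> fun h => by exact_mod_cast h)
      ((Int.dvd_natAbs).2 hd)
    omega
  · intro p hp hgood
    have hg : ¬ (p : ℤ) ∣ 2 * A := by
      intro h
      apply hgood
      have : (p : ℤ) ∣ (2 * A) * (4 * A ^ 2) := Dvd.dvd.mul_right h _
      convert this using 1
      ring
    have hp2 : p ≠ 2 := by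
      rintro rfl
      exact hg ⟨A, by push_cast; ring⟩
    refine ⟨fun h => hg (hpm p hp h), ?_, ?_⟩
    · intro h
      have : p ∣ 2 ^ 2 := by norm_num; exact h
      exact hp2 ((Nat.prime_dvd_prime_iff_eq hp Nat.prime_two).1 (hp.dvd_of_dvd_pow this))
    · by_cases h3 : p % 4 = 3
      · left
        refine ⟨fun α h => ?_, ap_three A hp h3⟩
        rw [hnorm] at h
        have h5 : α.norm = (p : ℤ) := by exact_mod_cast h
        rw [Zsqrtd.norm_def] at h5
        have h6 : α.re ^ 2 + α.im ^ 2 = (p : ℤ) := by linarith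
        rcases sq_mod_four α.re with h7 | h7 <;> rcases sq_mod_four α.im with h8 | h8 <;> omega
      · right
        have : Fact p.Prime := ⟨hp⟩
        obtain ⟨a, b, hab⟩ := Nat.Prime.sq_add_sq h3
        have h5 : ((⟨a, b⟩ : GaussianInt)).norm = (p : ℤ) := by
          rw [Zsqrtd.norm_def]
          have : (a : ℤ) ^ 2 + (b : ℤ) ^ 2 = p := by exact_mod_cast hab
          show (a : ℤ) * a - -1 * b * b = p
          linarith
        refine ⟨⟨a, b⟩, ?_, ?_⟩
        · rw [hnorm, h5]
          push_cast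
          rfl
        · rw [← gz_eq]
          exact hpt ⟨a, b⟩ p hp hg h5


section

open Pool.Agent.Y692.QS Pool.Agent.Y692.QTN4

theorem sextic_afs (B : ℤ) (hB : B ≠ 0) : ∃ (N : ℕ) (f : ℕ → ℂ), AFS 0 B N f := by
  obtain ⟨κ, hκ⟩ := Kap.exists (4 * B) (mul_ne_zero (by norm_num) hB)
  have h36 : 36 * B ≠ 0 := mul_ne_zero (by norm_num) hB
  have hmdvd : ∀ α : Ei, (((36 * B).natAbs : ℕ) : Ei) ∣ α → ((36 * B : ℤ) : Ei) ∣ α := by
    intro α h
    have h1 : ((((36 * B).natAbs : ℕ) : ℤ) : Ei) ∣ α := by rwa [Int.cast_natCast]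
    rw [int_dvd] at h1 ⊢
    exact ⟨Int.natAbs_dvd.1 h1.1, Int.natAbs_dvd.1 h1.2⟩
  have hmcop : ∀ α : Ei, IsCoprime α (((36 * B).natAbs : ℕ) : Ei) ↔ IsCoprime (nr α) (36 * B) := by
    intro α
    have h1 : IsCoprime α (((36 * B).natAbs : ℕ) : Ei) ↔
        IsCoprime (nr α) (((36 * B).natAbs : ℕ) : ℤ) := by
      rw [← cop_ei, Int.cast_natCast]
    rw [h1]
    rcases Int.natAbs_eq (36 * B) with h | h
    · conv_rhs => rw [h]
    · conv_rhs => rw [h]
      exact (IsCoprime.neg_right_iff _ _).symm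
  refine afs_of toC toC_inj (fun α => star α) toC_star ei_qp (D0 := 3) ?_ (m := (36 * B).natAbs)
    (θ := th B κ) (Int.natAbs_pos.2 h36) (th_mul hκ) (fun α β h => th_per hκ (hmdvd _ h))
    (fun α => ?_) (fun u hu => th_unit hκ hu) (th_star hκ) (36 * B).natAbs ?_ 0 B ?_
  · have h3 : Real.sqrt 3 ^ 2 = 3 := Real.sq_sqrt (by norm_num)
    show 4 * (Real.sqrt 3 / 2) ^ 2 = ((3 : ℕ) : ℝ)
    push_cast
    linear_combination h3
  · rw [th_zero hκ, hmcop]
  · intro p p' hp hp' hno h3 hmod hlt
    have hp3 : p % 3 = 2 := by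
      have h0 : p % 3 ≠ 0 := by
        intro h
        exact h3 ((Nat.prime_dvd_prime_iff_eq Nat.prime_three hp).1 (Nat.dvd_of_mod_eq_zero h) ▸
          dvd_rfl)
      have h1 : p % 3 ≠ 1 := by
        intro h
        obtain ⟨π, hπ⟩ := exists_pi hp h
        apply hno π
        rw [toC_normSq, hπ]
        push_cast
        rfl
      omega
    refine th_inert hκ hp' (by omega) ?_
    intro hd
    have h4 : p' ∣ (36 * B).natAbs := Int.natCast_dvd.1 hd
    have := Nat.le_of_dvd (Int.natAbs_pos.2 h36) h4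
    omega
  · intro p hp hgood
    have hpp : Prime (p : ℤ) := Nat.prime_iff_prime_int.1 hp
    have hg : ¬ (p : ℤ) ∣ 6 * B := by
      intro h
      apply hgood
      have : (p : ℤ) ∣ (6 * B) * (9 * B) := Dvd.dvd.mul_right h _
      convert this using 1
      ring
    have hp2 : p ≠ 2 := by
      rintro rfl
      exact hg ⟨3 * B, by push_cast; ring⟩
    have hp3 : p ≠ 3 := by
      rintro rfl
      exact hg ⟨2 * B, by push_cast; ring⟩
    have hpB : ¬ (p : ℤ) ∣ B := fun h => hg (Dvd.dvd.mul_left h _)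
    have h36p : ¬ (p : ℤ) ∣ 36 * B := by
      intro h
      have h1 : (p : ℤ) ∣ (6 * B) * 6 := by
        have : (6 * B) * 6 = 36 * B := by ring
        rw [this]
        exact h
      rcases hpp.dvd_or_dvd h1 with h2 | h2
      · exact hg h2
      · exact hg (Dvd.dvd.mul_right h2 _)
    refine ⟨fun h => h36p (Int.natCast_dvd.2 h), ?_, ?_⟩
    · intro h
      exact hp3 ((Nat.prime_dvd_prime_iff_eq hp Nat.prime_three).1 h)
    · have h0 : p % 3 ≠ 0 := by
        intro h
        exact hp3 ((Nat.prime_dvd_prime_iff_eq Nat.prime_three hp).1 (Nat.dvd_of_mod_eq_zero h)).symm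
      by_cases h3 : p % 3 = 2
      · left
        refine ⟨fun α h => ?_, ap_two B hp hp2 h3⟩
        rw [toC_normSq] at h
        have h5 : nr α = (p : ℤ) := by exact_mod_cast h
        have h6 := nr_mod α
        rw [h5] at h6
        have h7 : ((p : ℤ) : ZMod 3) = 2 := by
          have : ((p : ℤ) : ZMod 3) = ((2 : ℤ) : ZMod 3) := by
            rw [ZMod.intCast_eq_intCast_iff]
            show (p : ℤ) % 3 = 2 % 3
            omega
          rw [this]
          rfl
        rw [h7] at h6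
        generalize ((α.re : ℤ) : ZMod 3) = x at h6
        generalize ((α.im : ℤ) : ZMod 3) = y at h6
        revert x y
        decide
      · right
        have : Fact p.Prime := ⟨hp⟩
        obtain ⟨π, hπ⟩ := exists_pi hp (by omega)
        have hcπ : IsCoprime (nr π) (36 * B) := by
          rw [hπ]
          exact (Prime.coprime_iff_not_dvd hpp).2 h36p
        refine ⟨ns π, ?_, ?_⟩
        · rw [toC_normSq, nr_ns (cop_three hcπ), hπ]
          push_cast
          rfl
        · have hcn : IsCoprime (nr (ns π)) (36 * B) := by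
            rw [nr_ns (cop_three hcπ)]
            exact hcπ
          have hnn : ns (ns π) = ns π := ns_fix (ns_one (cop_three hcπ))
          have hepn : ep (ns π) = 1 := by
            have := ep_per (ns_one (cop_three hcπ))
            rw [this]
            exact ep_unit isUnit_one
          have h4B : ¬ (p : ℤ) ∣ 4 * B := by
            intro h
            apply h36p
            have : (36 * B) = 9 * (4 * B) := by ring
            rw [this]
            exact Dvd.dvd.mul_left h _
          have hv := hκ.val p π hπ hp3 h4B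
          have hap := ap_eq hπ hp3 hp2 hpB
          rw [hv] at hap
          have hth : th B κ (ns π) = toC (rho p (B : ZMod p) * κ (ns π)) := by
            rw [th_of hcn, hnn, hepn, star_one, mul_one, nr_ns (cop_three hcπ), hπ, Int.natAbs_natCast,
              ← jacobiSym.legendreSym.to_jacobiSym, map_mul]
            congr 1
            exact (map_intCast toC _).symm
          have h8 := congrArg toC hap
          rw [map_add, toC_star, map_intCast] at h8
          rw [h8, hth, ← map_mul]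


end

end Pool.Agent.Y763.QTP
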